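import Mathlib
import Pool.Agent.LawsFI.Core

set_option autoImplicit false

/-!
# Groups with the laws `PX`

`A = D3 ⊤` is the subgroup generated by all `[[x,y],z]` and `D = D2 ⊤` the derived subgroup.
`PX` says `[[A,A],A] = 1`, `[A,A]` has exponent two and `[a, c b c⁻¹] = [c a c⁻¹, b]` for
`a, b ∈ A`, `c ∈ D` (on generators).
-/

namespace Pool.Agent.LawsFJ

open Pool.Agent.LawsFI (F C2 cm map_cm)

section cmlemmas

variable {T : Type} [Group T]

theorem cm_mul_left (x y z : T) : cm (x * y) z = x * cm y z * x⁻¹ * cm x z := by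
  unfold cm; group

theorem cm_mul_right (x y z : T) : cm x (y * z) = cm x y * (y * cm x z * y⁻¹) := by
  unfold cm; group

theorem cm_inv_left (x z : T) : cm x⁻¹ z = x⁻¹ * (cm x z)⁻¹ * x := by
  unfold cm; group

theorem cm_inv_right (x z : T) : cm x z⁻¹ = z⁻¹ * (cm x z)⁻¹ * z := by
  unfold cm; group

theorem cm_swap (x y : T) : (cm x y)⁻¹ = cm y x := by
  unfold cm; group

theorem cm_conj (g x y : T) : g * cm x y * g⁻¹ = cm (g * x * g⁻¹) (g * y * g⁻¹) := by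
  unfold cm; group

theorem cm_one_left (x : T) : cm 1 x = 1 := by simp [cm]
theorem cm_one_right (x : T) : cm x 1 = 1 := by simp [cm]
theorem cm_self (x : T) : cm x x = 1 := by simp [cm]

theorem cm_eq_one {x y : T} : cm x y = 1 ↔ x * y = y * x := by
  unfold cm
  constructor
  · intro h
    have : x * y * x⁻¹ * y⁻¹ * (y * x) = 1 * (y * x) := by rw [h]
    simpa [mul_assoc] using this
  · intro h
    rw [h]; group

end cmlemmas

section D

variable {T T' : Type} [Group T] [Group T']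

def D2 (N : Subgroup T) : Subgroup T := Subgroup.closure {x | ∃ a ∈ N, ∃ b ∈ N, x = cm a b}

def D3 (N : Subgroup T) : Subgroup T :=
  Subgroup.closure {x | ∃ a ∈ N, ∃ b ∈ N, ∃ c ∈ N, x = cm (cm a b) c}

theorem cm_mem_D2 {N : Subgroup T} {a b : T} (ha : a ∈ N) (hb : b ∈ N) : cm a b ∈ D2 N :=
  Subgroup.subset_closure ⟨a, ha, b, hb, rfl⟩

theorem cm_mem_D3 {N : Subgroup T} {a b c : T} (ha : a ∈ N) (hb : b ∈ N) (hc : c ∈ N) :
    cm (cm a b) c ∈ D3 N :=
  Subgroup.subset_closure ⟨a, ha, b, hb, c, hc, rfl⟩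

theorem D3_le {N K : Subgroup T} (h : ∀ a ∈ N, ∀ b ∈ N, ∀ c ∈ N, cm (cm a b) c ∈ K) :
    D3 N ≤ K := by
  unfold D3
  rw [Subgroup.closure_le]
  rintro _ ⟨a, ha, b, hb, c, hc, rfl⟩
  exact h a ha b hb c hc

theorem D2_map {N : Subgroup T} {N' : Subgroup T'} (f : T →* T') (h : ∀ x ∈ N, f x ∈ N')
    {c : T} (hc : c ∈ D2 N) : f c ∈ D2 N' := by
  have : D2 N ≤ (D2 N').comap f := by
    unfold D2
    rw [Subgroup.closure_le]
    rintro _ ⟨a, ha, b, hb, rfl⟩
    show f (cm a b) ∈ D2 N'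
    rw [map_cm]
    exact cm_mem_D2 (h a ha) (h b hb)
  exact this hc

theorem D3_map {N : Subgroup T} {N' : Subgroup T'} (f : T →* T') (h : ∀ x ∈ N, f x ∈ N')
    {c : T} (hc : c ∈ D3 N) : f c ∈ D3 N' := by
  have : D3 N ≤ (D3 N').comap f := by
    unfold D3
    rw [Subgroup.closure_le]
    rintro _ ⟨a, ha, b, hb, c, hc, rfl⟩
    show f (cm (cm a b) c) ∈ D3 N'
    rw [map_cm, map_cm]
    exact cm_mem_D3 (h a ha) (h b hb) (h c hc)
  exact this hc

theorem D2_le {N : Subgroup T} : D2 N ≤ N := by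
  unfold D2
  rw [Subgroup.closure_le]
  rintro _ ⟨a, ha, b, hb, rfl⟩
  unfold cm
  exact N.mul_mem (N.mul_mem (N.mul_mem ha hb) (N.inv_mem ha)) (N.inv_mem hb)

theorem cm_mem {N : Subgroup T} {a b : T} (ha : a ∈ N) (hb : b ∈ N) : cm a b ∈ N :=
  D2_le (cm_mem_D2 ha hb)

theorem D3_le_D2 {N : Subgroup T} : D3 N ≤ D2 N := by
  unfold D3
  rw [Subgroup.closure_le]
  rintro _ ⟨a, ha, b, hb, c, hc, rfl⟩
  exact cm_mem_D2 (cm_mem ha hb) hc

theorem D2_mono {N N' : Subgroup T} (h : N ≤ N') : D2 N ≤ D2 N' :=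
  fun _ hx => D2_map (MonoidHom.id T) (fun _ hx => h hx) hx

theorem D3_mono {N N' : Subgroup T} (h : N ≤ N') : D3 N ≤ D3 N' :=
  fun _ hx => D3_map (MonoidHom.id T) (fun _ hx => h hx) hx

theorem D2_conj {N : Subgroup T} [hN : N.Normal] (g : T) {c : T} (hc : c ∈ D2 N) :
    g * c * g⁻¹ ∈ D2 N :=
  D2_map (MulAut.conj g).toMonoidHom (fun x hx => hN.conj_mem x hx g) hc

theorem D3_conj {N : Subgroup T} [hN : N.Normal] (g : T) {c : T} (hc : c ∈ D3 N) :
    g * c * g⁻¹ ∈ D3 N :=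
  D3_map (MulAut.conj g).toMonoidHom (fun x hx => hN.conj_mem x hx g) hc

instance D2_normal {N : Subgroup T} [N.Normal] : (D2 N).Normal := ⟨fun _ hn g => D2_conj g hn⟩
instance D3_normal {N : Subgroup T} [N.Normal] : (D3 N).Normal := ⟨fun _ hn g => D3_conj g hn⟩

/-- `[D2, ⊤] ≤ D3` -/
theorem cm_D2_left {c : T} (hc : c ∈ D2 (⊤ : Subgroup T)) (x : T) :
    cm c x ∈ D3 (⊤ : Subgroup T) := by
  unfold D2 at hc
  induction hc using Subgroup.closure_induction with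
  | mem c hc =>
    obtain ⟨a, _, b, _, rfl⟩ := hc
    exact cm_mem_D3 trivial trivial trivial
  | one => rw [cm_one_left]; exact Subgroup.one_mem _
  | mul c d _ _ hc hd =>
    rw [cm_mul_left]
    exact Subgroup.mul_mem _ (D3_conj c hd) hc
  | inv c _ hc =>
    rw [cm_inv_left]
    have := D3_conj c⁻¹ (Subgroup.inv_mem _ hc)
    simpa using this

theorem cm_D2_right {c : T} (hc : c ∈ D2 (⊤ : Subgroup T)) (x : T) :
    cm x c ∈ D3 (⊤ : Subgroup T) := by
  rw [← cm_swap]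
  exact Subgroup.inv_mem _ (cm_D2_left hc x)

theorem D2_lift (f : T →* T') (hf : Function.Surjective f) {c : T'}
    (hc : c ∈ D2 (⊤ : Subgroup T')) : ∃ d ∈ D2 (⊤ : Subgroup T), f d = c := by
  have : D2 (⊤ : Subgroup T') ≤ (D2 (⊤ : Subgroup T)).map f := by
    conv_lhs => unfold D2
    rw [Subgroup.closure_le]
    rintro _ ⟨a, _, b, _, rfl⟩
    obtain ⟨a, rfl⟩ := hf a
    obtain ⟨b, rfl⟩ := hf b
    exact ⟨cm a b, cm_mem_D2 trivial trivial, map_cm f a b⟩
  obtain ⟨d, hd, rfl⟩ := this hc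
  exact ⟨d, hd, rfl⟩

theorem D3_lift (f : T →* T') (hf : Function.Surjective f) {c : T'}
    (hc : c ∈ D3 (⊤ : Subgroup T')) : ∃ d ∈ D3 (⊤ : Subgroup T), f d = c := by
  have : D3 (⊤ : Subgroup T') ≤ (D3 (⊤ : Subgroup T)).map f := by
    conv_lhs => unfold D3
    rw [Subgroup.closure_le]
    rintro _ ⟨a, _, b, _, c, _, rfl⟩
    obtain ⟨a, rfl⟩ := hf a
    obtain ⟨b, rfl⟩ := hf b
    obtain ⟨c, rfl⟩ := hf c
    exact ⟨cm (cm a b) c, cm_mem_D3 trivial trivial trivial, by rw [map_cm, map_cm]⟩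
  obtain ⟨d, hd, rfl⟩ := this hc
  exact ⟨d, hd, rfl⟩

end D

section words

variable {T T' : Type} [Group T] [Group T']

def a3 (v : ℕ → T) (i : ℕ) : T := cm (cm (v i) (v (i+1))) (v (i+2))

def wX1 (v : ℕ → T) : T := cm (cm (a3 v 0) (a3 v 3)) (a3 v 6)
def wX2 (v : ℕ → T) : T := (cm (a3 v 0) (a3 v 3)) * (cm (a3 v 0) (a3 v 3))
def wX3 (v : ℕ → T) : T :=
  cm (a3 v 0) (cm (v 6) (v 7) * a3 v 3 * (cm (v 6) (v 7))⁻¹) *
    (cm (cm (v 6) (v 7) * a3 v 0 * (cm (v 6) (v 7))⁻¹) (a3 v 3))⁻¹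

theorem map_a3 (f : T →* T') (v : ℕ → T) (i : ℕ) : f (a3 v i) = a3 (fun j => f (v j)) i := by
  simp [a3]

theorem map_wX1 (f : T →* T') (v : ℕ → T) : f (wX1 v) = wX1 (fun j => f (v j)) := by
  simp [wX1, map_a3]

theorem map_wX2 (f : T →* T') (v : ℕ → T) : f (wX2 v) = wX2 (fun j => f (v j)) := by
  simp [wX2, map_a3]

theorem map_wX3 (f : T →* T') (v : ℕ → T) : f (wX3 v) = wX3 (fun j => f (v j)) := by
  simp [wX3, map_a3]

/-- the laws of the variety `X` -/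
def PX (T : Type) [Group T] : Prop := ∀ v : ℕ → T, wX1 v = 1 ∧ wX2 v = 1 ∧ wX3 v = 1

/-- the law `[c a c⁻¹, a] = 1` on a subgroup -/
def PHs {T : Type} [Group T] (N : Subgroup T) : Prop :=
  ∀ c ∈ D2 N, ∀ a ∈ D3 N, cm (c * a * c⁻¹) a = 1

def hh (c a : T) : T := cm (c * a * c⁻¹) a

theorem map_hh (f : T →* T') (c a : T) : f (hh c a) = hh (f c) (f a) := by
  simp [hh]

end words

section PXlemmas

variable {T : Type} [Group T] (hX : PX T)

abbrev A (T : Type) [Group T] : Subgroup T := D3 (⊤ : Subgroup T)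
abbrev DD (T : Type) [Group T] : Subgroup T := D2 (⊤ : Subgroup T)

def IsVal (s : T) : Prop := ∃ x y z : T, s = cm (cm x y) z

theorem IsVal.mem {s : T} (h : IsVal s) : s ∈ A T := by
  obtain ⟨x, y, z, rfl⟩ := h
  exact cm_mem_D3 trivial trivial trivial

theorem A_induction {p : T → Prop} (hv : ∀ s, IsVal s → p s) (h1 : p 1)
    (hm : ∀ x ∈ A T, ∀ y ∈ A T, p x → p y → p (x * y)) (hi : ∀ x ∈ A T, p x → p x⁻¹)
    {a : T} (ha : a ∈ A T) : p a := by
  have ha' := ha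
  unfold A D3 at ha'
  induction ha' using Subgroup.closure_induction with
  | mem s hs =>
    obtain ⟨x, _, y, _, z, _, rfl⟩ := hs
    exact hv _ ⟨x, y, z, rfl⟩
  | one => exact h1
  | mul x y hx hy h3 h4 => exact hm x hx y hy (h3 hx) (h4 hy)
  | inv x hx h3 => exact hi x hx (h3 hx)

include hX

theorem val1 {s1 s2 s3 : T} (h1 : IsVal s1) (h2 : IsVal s2) (h3 : IsVal s3) :
    cm (cm s1 s2) s3 = 1 := by
  obtain ⟨x1, y1, z1, rfl⟩ := h1
  obtain ⟨x2, y2, z2, rfl⟩ := h2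
  obtain ⟨x3, y3, z3, rfl⟩ := h3
  exact (hX (fun n => match n with
    | 0 => x1 | 1 => y1 | 2 => z1 | 3 => x2 | 4 => y2 | 5 => z2 | 6 => x3 | 7 => y3 | _ => z3)).1

theorem val2 {s1 s2 : T} (h1 : IsVal s1) (h2 : IsVal s2) :
    cm s1 s2 * cm s1 s2 = 1 := by
  obtain ⟨x1, y1, z1, rfl⟩ := h1
  obtain ⟨x2, y2, z2, rfl⟩ := h2
  exact (hX (fun n => match n with
    | 0 => x1 | 1 => y1 | 2 => z1 | 3 => x2 | 4 => y2 | _ => z2)).2.1

theorem val3 {s1 s2 : T} (h1 : IsVal s1) (h2 : IsVal s2) (u v : T) :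
    cm s1 (cm u v * s2 * (cm u v)⁻¹) = cm (cm u v * s1 * (cm u v)⁻¹) s2 := by
  obtain ⟨x1, y1, z1, rfl⟩ := h1
  obtain ⟨x2, y2, z2, rfl⟩ := h2
  have := (hX (fun n => match n with
    | 0 => x1 | 1 => y1 | 2 => z1 | 3 => x2 | 4 => y2 | 5 => z2 | 6 => u | _ => v)).2.2
  exact mul_inv_eq_one.mp this

theorem A1_aux {s1 s2 : T} (h1 : IsVal s1) (h2 : IsVal s2) {c : T} (hc : c ∈ A T) :
    cm s1 s2 * c = c * cm s1 s2 := by
  refine A_induction (p := fun c => cm s1 s2 * c = c * cm s1 s2) ?_ ?_ ?_ ?_ hc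
  · intro s hs
    exact cm_eq_one.mp (val1 hX h1 h2 hs)
  · simp
  · intro x _ y _ hx hy
    rw [← mul_assoc, hx, mul_assoc, hy, mul_assoc]
  · intro x _ hx
    rw [mul_inv_eq_iff_eq_mul, mul_assoc, hx, inv_mul_cancel_left]

theorem A1_aux2 {a s2 : T} (ha : a ∈ A T) (h2 : IsVal s2) {c : T} (hc : c ∈ A T) :
    cm a s2 * c = c * cm a s2 := by
  revert c
  refine A_induction (p := fun a => ∀ {c : T}, c ∈ A T → cm a s2 * c = c * cm a s2) ?_ ?_ ?_ ?_ ha
  · intro s hs c hc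
    exact A1_aux hX hs h2 hc
  · intro c _
    rw [cm_one_left]; simp
  · intro x hx y hy h3 h4 c hc
    have e : cm (x * y) s2 = cm y s2 * cm x s2 := by
      rw [cm_mul_left]
      have := h4 hx
      rw [← this]; group
    rw [e, mul_assoc, h3 hc, ← mul_assoc, h4 hc, mul_assoc]
  · intro x hx h3 c hc
    have e : cm x⁻¹ s2 = (cm x s2)⁻¹ := by
      rw [cm_inv_left]
      have := h3 hx
      have h5 : x⁻¹ * (cm x s2)⁻¹ = (cm x s2)⁻¹ * x⁻¹ := by
        rw [← mul_inv_rev, ← mul_inv_rev, this]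
      rw [h5]; group
    rw [e]
    have := h3 hc
    rw [inv_mul_eq_iff_eq_mul, ← mul_assoc, this, mul_inv_cancel_right]

/-- commutators of elements of `A` commute with `A` -/
theorem A1 {a b c : T} (ha : a ∈ A T) (hb : b ∈ A T) (hc : c ∈ A T) :
    cm a b * c = c * cm a b := by
  revert c
  refine A_induction (p := fun b => ∀ {c : T}, c ∈ A T → cm a b * c = c * cm a b) ?_ ?_ ?_ ?_ hb
  · intro s hs c hc
    exact A1_aux2 hX ha hs hc
  · intro c _
    rw [cm_one_right]; simp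
  · intro x hx y hy h3 h4 c hc
    have e : cm a (x * y) = cm a x * cm a y := by
      rw [cm_mul_right]
      have := h4 hx
      rw [← this]; group
    rw [e, mul_assoc, h4 hc, ← mul_assoc, h3 hc, mul_assoc]
  · intro x hx h3 c hc
    have e : cm a x⁻¹ = (cm a x)⁻¹ := by
      rw [cm_inv_right]
      have := h3 hx
      have h5 : x⁻¹ * (cm a x)⁻¹ = (cm a x)⁻¹ * x⁻¹ := by
        rw [← mul_inv_rev, ← mul_inv_rev, this]
      rw [h5]; group
    rw [e]
    have := h3 hc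
    rw [inv_mul_eq_iff_eq_mul, ← mul_assoc, this, mul_inv_cancel_right]

theorem bil_left {a b c : T} (ha : a ∈ A T) (hb : b ∈ A T) (hc : c ∈ A T) :
    cm (a * b) c = cm a c * cm b c := by
  rw [cm_mul_left, ← A1 hX hb hc ha, mul_inv_cancel_right,
    A1 hX hb hc (cm_mem ha hc)]

theorem bil_right {a b c : T} (ha : a ∈ A T) (hb : b ∈ A T) (hc : c ∈ A T) :
    cm a (b * c) = cm a b * cm a c := by
  rw [cm_mul_right, ← A1 hX ha hc hb, mul_inv_cancel_right]

theorem bil_inv_left {a c : T} (ha : a ∈ A T) (hc : c ∈ A T) :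
    cm a⁻¹ c = (cm a c)⁻¹ := by
  have := bil_left hX (Subgroup.inv_mem _ ha) ha hc
  rw [inv_mul_cancel, cm_one_left] at this
  exact eq_inv_of_mul_eq_one_left this.symm

theorem bil_inv_right {a c : T} (ha : a ∈ A T) (hc : c ∈ A T) :
    cm a c⁻¹ = (cm a c)⁻¹ := by
  have := bil_right hX ha (Subgroup.inv_mem _ hc) hc
  rw [inv_mul_cancel, cm_one_right] at this
  exact eq_inv_of_mul_eq_one_left this.symm

/-- commutators of elements of `A` have order two -/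
theorem A3 {a b : T} (ha : a ∈ A T) (hb : b ∈ A T) : cm a b * cm a b = 1 := by
  refine A_induction (p := fun b => cm a b * cm a b = 1) ?_ ?_ ?_ ?_ hb
  · intro s hs
    refine A_induction (p := fun a => cm a s * cm a s = 1) ?_ ?_ ?_ ?_ ha
    · intro s' hs'
      exact val2 hX hs' hs
    · rw [cm_one_left]; simp
    · intro x hx y hy h1 h2
      rw [bil_left hX hx hy hs.mem, mul_assoc, ← mul_assoc (cm y s),
        A1 hX hy hs.mem (cm_mem hx hs.mem), mul_assoc, h2, mul_one, h1]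
    · intro x hx h1
      rw [bil_inv_left hX hx hs.mem, ← mul_inv_rev, h1, inv_one]
  · rw [cm_one_right]; simp
  · intro x hx y hy h1 h2
    rw [bil_right hX ha hx hy, mul_assoc, ← mul_assoc (cm a y),
      A1 hX ha hy (cm_mem ha hx), mul_assoc, h2, mul_one, h1]
  · intro x hx h1
    rw [bil_inv_right hX ha hx, ← mul_inv_rev, h1, inv_one]

theorem cm_comm_A {a b : T} (ha : a ∈ A T) (hb : b ∈ A T) : cm a b = cm b a :=
  (eq_inv_of_mul_eq_one_left (A3 hX ha hb)).trans (cm_swap a b)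

/-- changing `g` by an element of `A` -/
theorem AK {a b k : T} (g : T) (ha : a ∈ A T) (hb : b ∈ A T) (hk : k ∈ A T) :
    cm ((g * k) * a * (g * k)⁻¹) b = cm (g * a * g⁻¹) b := by
  have e : (g * k) * a * (g * k)⁻¹ = (g * cm k a * g⁻¹) * (g * a * g⁻¹) := by
    unfold cm; group
  have h1 : g * cm k a * g⁻¹ ∈ A T := D3_conj g (cm_mem hk ha)
  rw [e, bil_left hX h1 (D3_conj g ha) hb]
  have h2 : cm (g * cm k a * g⁻¹) b = 1 := by
    rw [cm_conj, cm_eq_one]
    exact A1 hX (D3_conj g hk) (D3_conj g ha) hb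
  rw [h2, one_mul]

theorem AK' {a b k : T} (g : T) (ha : a ∈ A T) (hb : b ∈ A T) (hk : k ∈ A T) :
    cm b ((g * k) * a * (g * k)⁻¹) = cm b (g * a * g⁻¹) := by
  rw [← cm_swap, AK hX g ha hb hk, cm_swap]

/-- the balancedness of the commutator form -/
theorem A4 {a b d : T} (ha : a ∈ A T) (hb : b ∈ A T) (hd : d ∈ DD T) :
    cm a (d * b * d⁻¹) = cm (d * a * d⁻¹) b := by
  have hd' := hd
  unfold DD D2 at hd'
  revert a b
  induction hd' using Subgroup.closure_induction with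
  | mem d hd1 =>
    obtain ⟨u, _, v, _, rfl⟩ := hd1
    intro a b ha hb
    refine A_induction (p := fun b => cm a (cm u v * b * (cm u v)⁻¹) =
      cm (cm u v * a * (cm u v)⁻¹) b) ?_ ?_ ?_ ?_ hb
    · intro s hs
      refine A_induction (p := fun a => cm a (cm u v * s * (cm u v)⁻¹) =
        cm (cm u v * a * (cm u v)⁻¹) s) ?_ ?_ ?_ ?_ ha
      · intro s' hs'
        exact val3 hX hs' hs u v
      · rw [cm_one_left, mul_one, mul_inv_cancel, cm_one_left]
      · intro x hx y hy h1 h2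
        have e : cm u v * (x * y) * (cm u v)⁻¹ =
            (cm u v * x * (cm u v)⁻¹) * (cm u v * y * (cm u v)⁻¹) := by group
        rw [bil_left hX hx hy (D3_conj _ hs.mem), h1, h2, e,
          bil_left hX (D3_conj _ hx) (D3_conj _ hy) hs.mem]
      · intro x hx h1
        have e : cm u v * x⁻¹ * (cm u v)⁻¹ = (cm u v * x * (cm u v)⁻¹)⁻¹ := by group
        rw [bil_inv_left hX hx (D3_conj _ hs.mem), h1, e,
          bil_inv_left hX (D3_conj _ hx) hs.mem]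
    · rw [cm_one_right, mul_one, mul_inv_cancel, cm_one_right]
    · intro x hx y hy h1 h2
      have e : cm u v * (x * y) * (cm u v)⁻¹ =
          (cm u v * x * (cm u v)⁻¹) * (cm u v * y * (cm u v)⁻¹) := by group
      rw [e, bil_right hX ha (D3_conj _ hx) (D3_conj _ hy), h1, h2,
        bil_right hX (D3_conj _ ha) hx hy]
    · intro x hx h1
      have e : cm u v * x⁻¹ * (cm u v)⁻¹ = (cm u v * x * (cm u v)⁻¹)⁻¹ := by group
      rw [e, bil_inv_right hX ha (D3_conj _ hx), h1,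
        bil_inv_right hX (D3_conj _ ha) hx]
  | one => intro a b _ _; simp
  | mul d e hd1 he1 h1 h2 =>
    intro a b ha hb
    have hdD : d ∈ DD T := hd1
    have e1 : d * e * b * (d * e)⁻¹ = d * (e * b * e⁻¹) * d⁻¹ := by group
    have e2 : e * (d * a * d⁻¹) * e⁻¹ = (e * d) * a * (e * d)⁻¹ := by group
    have e3 : d * e = (e * d) * cm d⁻¹ e⁻¹ := by unfold cm; group
    rw [e1, h1 hdD ha (D3_conj e hb), h2 he1 (D3_conj d ha) hb, e2, e3,
      AK hX (e * d) ha hb (cm_D2_left (Subgroup.inv_mem _ hdD) _)]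
  | inv d hd1 h1 =>
    intro a b ha hb
    have h2 := h1 hd1 (D3_conj d⁻¹ ha) (D3_conj d⁻¹ hb)
    have e1 : d * (d⁻¹ * b * d⁻¹⁻¹) * d⁻¹ = b := by group
    have e2 : d * (d⁻¹ * a * d⁻¹⁻¹) * d⁻¹ = a := by group
    rw [e1, e2] at h2
    exact h2.symm

omit hX in
theorem hh_mem_A {c a : T} (ha : a ∈ A T) : hh c a ∈ A T :=
  cm_mem (D3_conj c ha) ha

theorem hh_comm {c a x : T} (ha : a ∈ A T) (hx : x ∈ A T) : hh c a * x = x * hh c a :=
  A1 hX (D3_conj c ha) ha hx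

/-- additivity -/
theorem A5 {c a b : T} (hc : c ∈ DD T) (ha : a ∈ A T) (hb : b ∈ A T) :
    hh c (a * b) = hh c a * hh c b := by
  have e : c * (a * b) * c⁻¹ = (c * a * c⁻¹) * (c * b * c⁻¹) := by group
  have ha' := D3_conj c ha
  have hb' := D3_conj c hb
  unfold hh
  rw [e, bil_left hX ha' hb' (Subgroup.mul_mem _ ha hb), bil_right hX ha' ha hb,
    bil_right hX hb' ha hb, cm_comm_A hX hb' ha, A4 hX ha hb hc]
  have h3 := A3 hX ha' hb
  rw [mul_assoc, ← mul_assoc (cm (c * a * c⁻¹) b), h3, one_mul]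

theorem hh_inv {c a : T} (hc : c ∈ DD T) (ha : a ∈ A T) : hh c a⁻¹ = (hh c a)⁻¹ := by
  have := A5 hX hc (Subgroup.inv_mem _ ha) ha
  rw [inv_mul_cancel] at this
  have h1 : hh c (1 : T) = 1 := by simp [hh, cm]
  rw [h1] at this
  exact eq_inv_of_mul_eq_one_left this.symm

theorem hh_sq {c a : T} (ha : a ∈ A T) : hh c a * hh c a = 1 :=
  A3 hX (D3_conj c ha) ha

/-- `hh c` kills the squares of elements of `A` -/
theorem hh_squares {c a : T} (hc : c ∈ DD T)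
    (ha : a ∈ Subgroup.closure {x : T | ∃ s ∈ A T, x = s * s}) : hh c a = 1 := by
  have key : ∀ x ∈ Subgroup.closure {x : T | ∃ s ∈ A T, x = s * s}, x ∈ A T ∧ hh c x = 1 := by
    intro x hx
    induction hx using Subgroup.closure_induction with
    | mem x hx =>
      obtain ⟨s, hs, rfl⟩ := hx
      exact ⟨Subgroup.mul_mem _ hs hs, by rw [A5 hX hc hs hs, hh_sq hX hs]⟩
    | one => exact ⟨Subgroup.one_mem _, by simp [hh, cm]⟩
    | mul x y _ _ hx hy =>
      exact ⟨Subgroup.mul_mem _ hx.1 hy.1, by rw [A5 hX hc hx.1 hy.1, hx.2, hy.2, one_mul]⟩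
    | inv x _ hx =>
      exact ⟨Subgroup.inv_mem _ hx.1, by rw [hh_inv hX hc hx.1, hx.2, inv_one]⟩
  exact (key a ha).2

theorem A7 {c a k : T} (ha : a ∈ A T) (hk : k ∈ A T) : hh (c * k) a = hh c a :=
  AK hX c ha ha hk

/-- `hh (c d²) a = hh c (d a d⁻¹)` -/
theorem A6 {c d a : T} (hd : d ∈ DD T) (ha : a ∈ A T) :
    hh (c * (d * d)) a = hh c (d * a * d⁻¹) := by
  have e : c * (d * d) = (d * (c * d)) * cm (c * d)⁻¹ d⁻¹ := by unfold cm; group
  have hk : cm (c * d)⁻¹ d⁻¹ ∈ A T := cm_D2_right (Subgroup.inv_mem _ hd) _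
  rw [e, A7 hX ha hk]
  unfold hh
  have e2 : d * (c * d) * a * (d * (c * d))⁻¹ = d * ((c * d) * a * (c * d)⁻¹) * d⁻¹ := by group
  have e3 : c * (d * a * d⁻¹) * c⁻¹ = (c * d) * a * (c * d)⁻¹ := by group
  rw [e2, e3, A4 hX (D3_conj (c * d) ha) ha hd]

theorem A8 {c a : T} (g : T) (hc : c ∈ DD T) (ha : a ∈ A T) :
    g * hh c a * g⁻¹ = hh c (g * a * g⁻¹) := by
  unfold hh
  rw [cm_conj]
  have e : g * (c * a * c⁻¹) * g⁻¹ = (c * g * cm g⁻¹ c⁻¹) * a * (c * g * cm g⁻¹ c⁻¹)⁻¹ := by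
    unfold cm; group
  have e2 : c * (g * a * g⁻¹) * c⁻¹ = (c * g) * a * (c * g)⁻¹ := by group
  rw [e, e2, AK hX (c * g) ha (D3_conj g ha) (cm_D2_right (Subgroup.inv_mem _ hc) _)]

end PXlemmas

end Pool.Agent.LawsFJ
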