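import Mathlib
import Pool.Agent.LawsFJ.Basic

set_option autoImplicit false

namespace Pool.Agent.LawsFJ

open Pool.Agent.LawsFI (F C2 cm map_cm)

structure GData (T : Type) [Group T] where
  M : Type
  [acgM : AddCommGroup M]
  act : T → M →+ M
  act_one : ∀ m, act 1 m = m
  act_mul : ∀ s t m, act (s * t) m = act s (act t m)
  σ : M →+ M →+ M
  equi : ∀ t m m', σ (act t m) (act t m') = act t (σ m m')
  two : ∀ m : M, m + m = 0

attribute [instance] GData.acgM

/-- the group of triples `(m, z, t)` -/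
@[ext] structure GG {T : Type} [Group T] (D : GData T) where
  m : D.M
  z : D.M
  t : T

namespace GG

variable {T : Type} [Group T] {D : GData T}

instance : Mul (GG D) := ⟨fun u v =>
  ⟨u.m + D.act u.t v.m, u.z + D.act u.t v.z + D.σ u.m (D.act u.t v.m), u.t * v.t⟩⟩

instance : One (GG D) := ⟨⟨0, 0, 1⟩⟩

instance : Inv (GG D) := ⟨fun u =>
  ⟨- D.act u.t⁻¹ u.m, -(D.act u.t⁻¹ u.z + D.σ (- D.act u.t⁻¹ u.m) (D.act u.t⁻¹ u.m)), u.t⁻¹⟩⟩

theorem mul_m (u v : GG D) : (u * v).m = u.m + D.act u.t v.m := rfl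
theorem mul_z (u v : GG D) :
  (u * v).z = u.z + D.act u.t v.z + D.σ u.m (D.act u.t v.m) := rfl
theorem mul_t (u v : GG D) : (u * v).t = u.t * v.t := rfl
theorem one_m : (1 : GG D).m = 0 := rfl
theorem one_z : (1 : GG D).z = 0 := rfl
theorem one_t : (1 : GG D).t = 1 := rfl
theorem inv_m (u : GG D) : (u⁻¹).m = - D.act u.t⁻¹ u.m := rfl
theorem inv_z (u : GG D) : (u⁻¹).z =
  -(D.act u.t⁻¹ u.z + D.σ (- D.act u.t⁻¹ u.m) (D.act u.t⁻¹ u.m)) := rfl
theorem inv_t (u : GG D) : (u⁻¹).t = u.t⁻¹ := rfl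

instance : Group (GG D) := Group.ofLeftAxioms
  (by
    intro u v w
    ext1
    · simp only [mul_m, mul_t, D.act_mul, map_add, add_assoc]
    · simp only [mul_m, mul_z, mul_t, D.act_mul, map_add, AddMonoidHom.add_apply, D.equi]
      abel
    · simp only [mul_t, mul_assoc])
  (by
    intro u
    ext1
    · simp [mul_m, one_m, one_t, D.act_one]
    · simp [mul_z, one_m, one_z, one_t, D.act_one]
    · simp [mul_t, one_t])
  (by
    intro u
    ext1
    · simp [mul_m, inv_m, inv_t, one_m]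
    · simp [mul_z, inv_m, inv_z, inv_t, one_z]
    · simp [mul_t, inv_t, one_t])

def proj : GG D →* T where
  toFun := GG.t
  map_one' := rfl
  map_mul' _ _ := rfl

theorem neg_eq (m : D.M) : -m = m := by
  rw [neg_eq_iff_add_eq_zero]; exact D.two m

/-- the commutator form -/
def β (D : GData T) (m m' : D.M) : D.M := D.σ m m' + D.σ m' m

theorem β_add_left (m1 m2 m' : D.M) : β D (m1 + m2) m' = β D m1 m' + β D m2 m' := by
  simp only [β, map_add, AddMonoidHom.add_apply]
  abel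

theorem β_add_right (m m1 m2 : D.M) : β D m (m1 + m2) = β D m m1 + β D m m2 := by
  simp only [β, map_add, AddMonoidHom.add_apply]
  abel

theorem β_symm (m m' : D.M) : β D m m' = β D m' m := by
  unfold β; abel

theorem mul_of {u v : GG D} (hu : u.t = 1) (hv : v.t = 1) :
    u * v = ⟨u.m + v.m, u.z + v.z + D.σ u.m v.m, 1⟩ := by
  ext1
  · simp [mul_m, hu, D.act_one]
  · simp [mul_z, hu, D.act_one]
  · simp [mul_t, hu, hv]

/-- commutators in the kernel of the projection -/
theorem cm_of {u v : GG D} (hu : u.t = 1) (hv : v.t = 1) :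
    cm u v = ⟨0, β D u.m v.m, 1⟩ := by
  have h : u * v = ⟨0, β D u.m v.m, 1⟩ * (v * u) := by
    rw [mul_of hu hv, mul_of hv hu, mul_of rfl rfl]
    ext1
    · simp [add_comm]
    · simp only [map_zero, AddMonoidHom.zero_apply, β]
      have := D.two (D.σ v.m u.m)
      rw [show D.σ u.m v.m + D.σ v.m u.m + (v.z + u.z + D.σ v.m u.m) + 0 =
        u.z + v.z + D.σ u.m v.m + (D.σ v.m u.m + D.σ v.m u.m) by abel, this, add_zero]
    · rfl
  unfold cm
  rw [h]; group

theorem conj_t {g u : GG D} (hu : u.t = 1) : (g * u * g⁻¹).t = 1 := by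
  simp [mul_t, inv_t, hu]

theorem conj_m {g u : GG D} (hu : u.t = 1) : (g * u * g⁻¹).m = D.act g.t u.m := by
  simp only [mul_m, mul_t, inv_m, hu, mul_one, map_neg, ← D.act_mul, mul_inv_cancel, D.act_one]
  abel

theorem hh_of {c a : GG D} (ha : a.t = 1) :
    hh c a = ⟨0, β D (D.act c.t a.m) a.m, 1⟩ := by
  unfold hh
  rw [cm_of (conj_t ha) ha, conj_m ha]

/-- `GG` satisfies the laws of `X` -/
theorem PX_of (hT : ∀ x y z : T, cm (cm x y) z = 1)
    (bal : ∀ u v : T, ∀ m m' : D.M, β D m (D.act (cm u v) m') = β D (D.act (cm u v) m) m') :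
    PX (GG D) := by
  have ht : ∀ (v : ℕ → GG D) (i : ℕ), (a3 v i).t = 1 := by
    intro v i
    have : proj (a3 v i) = 1 := by
      rw [map_a3]
      exact hT _ _ _
    exact this
  intro v
  refine ⟨?_, ?_, ?_⟩
  · unfold wX1
    rw [cm_of (ht v 0) (ht v 3), cm_of rfl (ht v 6)]
    ext1
    · rfl
    · simp [β, one_z]
    · rfl
  · unfold wX2
    rw [cm_of (ht v 0) (ht v 3), mul_of rfl rfl]
    ext1
    · simp [one_m]
    · simp [one_z, D.two]
    · rfl
  · unfold wX3
    rw [cm_of (ht v 0) (conj_t (ht v 3)), cm_of (conj_t (ht v 0)) (ht v 3),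
      conj_m (ht v 3), conj_m (ht v 0)]
    have h1 : (cm (v 6) (v 7)).t = cm (v 6).t (v 7).t := map_cm proj _ _
    rw [h1, bal, mul_inv_cancel]

end GG

end Pool.Agent.LawsFJ
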