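import Mathlib
import Pool.Agent.LawsFJ.Basic
import Pool.Agent.LawsFJ.GG
import Pool.Agent.LawsFI.Test

set_option autoImplicit false

namespace Pool.Agent.LawsFJ

open Pool.Agent.LawsFI (F C2 cm map_cm)

/-- nilpotent of class two, and no 2-torsion in the derived subgroup -/
structure Good (T : Type) [Group T] : Prop where
  cls : ∀ x y z : T, cm (cm x y) z = 1
  sq : ∀ e ∈ DD T, ∀ e' ∈ DD T, e * e = e' * e' → e = e'

section

variable {T : Type} [Group T] (hT : Good T)

include hT in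
theorem Good.cen {c : T} (hc : c ∈ DD T) (x : T) : c * x = x * c := by
  have h : DD T ≤ Subgroup.center T := by
    unfold DD D2
    rw [Subgroup.closure_le]
    rintro _ ⟨a, _, b, _, rfl⟩
    rw [SetLike.mem_coe, Subgroup.mem_center_iff]
    intro g
    exact (cm_eq_one.mp (hT.cls a b g)).symm
  exact ((Subgroup.mem_center_iff.mp (h hc)) x).symm

def Pd (c0 d : T) : Prop := ∃ e ∈ DD T, d = c0 * (e * e)

open Classical in
noncomputable def rt (c0 d : T) : T := if h : Pd c0 d then h.choose else 1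

theorem rt_mem (c0 d : T) : rt c0 d ∈ DD T := by
  unfold rt
  split_ifs with h
  · exact h.choose_spec.1
  · exact Subgroup.one_mem _

theorem rt_spec {c0 d : T} (h : Pd c0 d) : d = c0 * (rt c0 d * rt c0 d) := by
  have : rt c0 d = h.choose := by
    unfold rt; rw [dif_pos h]
  rw [this]
  exact h.choose_spec.2

include hT in
theorem rt_unique {c0 d e : T} (he : e ∈ DD T) (h : d = c0 * (e * e)) : rt c0 d = e := by
  have hP : Pd c0 d := ⟨e, he, h⟩
  have h1 := rt_spec hP
  rw [h] at h1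
  have h2 := mul_left_cancel h1
  have h3 := hT.sq e he _ (rt_mem c0 _) h2
  rw [h]
  exact h3.symm

include hT in
theorem Pd_inv_aux {c0 d e : T} (he : e ∈ DD T) (h : d = c0 * (e * e)) :
    d⁻¹ = c0 * ((c0⁻¹ * e⁻¹) * (c0⁻¹ * e⁻¹)) := by
  have h1 := hT.cen (Subgroup.inv_mem _ he) c0⁻¹
  have h2 := hT.cen (Subgroup.mul_mem _ he he) c0
  rw [h, ← h2, mul_inv_rev, mul_inv_rev]
  rw [mul_assoc c0⁻¹ e⁻¹, ← mul_assoc e⁻¹ c0⁻¹, h1]
  simp [mul_assoc]

include hT in
theorem Pd_inv {c0 d : T} (hc : c0 ∈ DD T) (h : Pd c0 d) : Pd c0 d⁻¹ := by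
  refine ⟨c0⁻¹ * (rt c0 d)⁻¹, ?_, Pd_inv_aux hT (rt_mem _ _) (rt_spec h)⟩
  exact Subgroup.mul_mem _ (Subgroup.inv_mem _ hc) (Subgroup.inv_mem _ (rt_mem _ _))

include hT in
theorem rt_inv {c0 d : T} (hc : c0 ∈ DD T) (h : Pd c0 d) :
    rt c0 d⁻¹ = c0⁻¹ * (rt c0 d)⁻¹ :=
  rt_unique hT (Subgroup.mul_mem _ (Subgroup.inv_mem _ hc) (Subgroup.inv_mem _ (rt_mem _ _)))
    (Pd_inv_aux hT (rt_mem _ _) (rt_spec h))

theorem Pd_mem {c0 d : T} (hc : c0 ∈ DD T) (h : Pd c0 d) : d ∈ DD T := by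
  obtain ⟨e, he, rfl⟩ := h
  exact Subgroup.mul_mem _ hc (Subgroup.mul_mem _ he he)

include hT in
theorem Pd_ne {c0 d : T} (hc : c0 ∈ DD T) (hc0 : ¬ ∃ e ∈ DD T, c0 = e * e) (h : Pd c0 d) :
    d ≠ d⁻¹ := by
  intro h1
  have hd := Pd_mem hc h
  have h2 : d * d = 1 * 1 := by
    have := mul_inv_cancel d
    rw [← h1] at this
    simpa using this
  have h3 : d = 1 := hT.sq d hd 1 (Subgroup.one_mem _) h2
  obtain ⟨e, he, h4⟩ := h
  apply hc0
  refine ⟨e⁻¹, Subgroup.inv_mem _ he, ?_⟩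
  rw [h3] at h4
  have := eq_inv_of_mul_eq_one_left h4.symm
  rw [this, mul_inv_rev]

/-- orientation -/
def os (d : T) : Prop := WellOrderingRel d⁻¹ d

theorem os_xor {d : T} (h : d ≠ d⁻¹) : (os d ∧ ¬ os d⁻¹) ∨ (¬ os d ∧ os d⁻¹) := by
  unfold os
  rw [inv_inv]
  rcases trichotomous_of WellOrderingRel d⁻¹ d with h1 | h1 | h1
  · exact Or.inl ⟨h1, asymm h1⟩
  · exact absurd h1.symm h
  · exact Or.inr ⟨asymm h1, h1⟩

end

section

variable (T : Type) [Group T]

abbrev MM := (ℕ × T) →₀ ZMod 2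

variable {T}

omit [Group T] in
theorem MM_two (m : MM T) : m + m = 0 := by
  ext x
  simp only [Finsupp.add_apply, Finsupp.zero_apply]
  exact Pool.Agent.LawsFI.z2 _

omit [Group T] in
theorem MM_ind {p : MM T → Prop} (h0 : p 0) (ha : ∀ m m', p m → p m' → p (m + m'))
    (hs : ∀ x, p (Finsupp.single x 1)) (m : MM T) : p m := by
  induction m using Finsupp.induction_linear with
  | zero => exact h0
  | add f g hf hg => exact ha f g hf hg
  | single x a =>
    have : a = 0 ∨ a = 1 := by revert a; decide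
    rcases this with rfl | rfl
    · simpa using h0
    · exact hs x

noncomputable def actM (p : T) : MM T →+ MM T :=
  Finsupp.mapDomain.addMonoidHom (fun x : ℕ × T => (x.1, x.2 * p⁻¹))

theorem actM_single (p : T) (x : ℕ × T) (a : ZMod 2) :
    actM p (Finsupp.single x a) = Finsupp.single (x.1, x.2 * p⁻¹) a := by
  simp [actM, Finsupp.mapDomain_single]

theorem actM_one (m : MM T) : actM 1 m = m := by
  refine MM_ind (p := fun m => actM 1 m = m) (by simp)
    (fun m m' h h' => by rw [map_add, h, h']) (fun x => ?_) m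
  rw [actM_single]; simp

theorem actM_mul (s t : T) (m : MM T) : actM (s * t) m = actM s (actM t m) := by
  refine MM_ind (p := fun m => actM (s * t) m = actM s (actM t m)) (by simp)
    (fun m m' h h' => by simp only [map_add, h, h']) (fun x => ?_) m
  rw [actM_single, actM_single, actM_single]
  simp [mul_assoc]

variable (c0 : T)

open Classical in
noncomputable def sbd (i j : ℕ) (g d : T) : MM T :=
  if i = j ∧ Pd c0 d ∧ os d then Finsupp.single (i, g * rt c0 d) 1 else 0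

/-- the oriented form on basis vectors -/
noncomputable def sb (x y : ℕ × T) : MM T := sbd c0 x.1 y.1 x.2 (x.2⁻¹ * y.2)

noncomputable def sL : MM T →ₗ[ZMod 2] (MM T →ₗ[ZMod 2] MM T) :=
  Finsupp.linearCombination (ZMod 2) (fun x =>
    Finsupp.linearCombination (ZMod 2) (fun y => sb c0 x y))

noncomputable def sM : MM T →+ MM T →+ MM T where
  toFun m := (sL c0 m).toAddMonoidHom
  map_zero' := by
    apply AddMonoidHom.ext
    intro x
    simp
  map_add' m m' := by
    apply AddMonoidHom.ext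
    intro x
    simp

theorem sM_single (x y : ℕ × T) : sM c0 (Finsupp.single x 1) (Finsupp.single y 1) = sb c0 x y := by
  simp [sM, sL]

variable {c0} (hT : Good T) (hc : c0 ∈ DD T)

include hT hc in
theorem sb_equi (t : T) (x y : ℕ × T) :
    sb c0 (x.1, x.2 * t⁻¹) (y.1, y.2 * t⁻¹) = actM t (sb c0 x y) := by
  have e : (x.2 * t⁻¹)⁻¹ * (y.2 * t⁻¹) = t * (x.2⁻¹ * y.2) * t⁻¹ := by group
  unfold sb
  dsimp only
  rw [e]
  generalize x.2⁻¹ * y.2 = d
  by_cases h : Pd c0 d
  · have h1 := hT.cen (Pd_mem hc h) t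
    have h2 : t * d * t⁻¹ = d := by
      rw [← h1, mul_inv_cancel_right]
    rw [h2]
    unfold sbd
    split_ifs
    · rw [actM_single]
      congr 2
      have := hT.cen (rt_mem c0 d) t⁻¹
      rw [mul_assoc, ← this, mul_assoc]
    · simp
  · have h' : ¬ Pd c0 (t * d * t⁻¹) := by
      intro h3
      have h1 := hT.cen (Pd_mem hc h3) t
      have h4 : t * d * t⁻¹ * t = t * d := by group
      rw [h4] at h1
      have h2 : t * d * t⁻¹ = d := (mul_left_cancel h1).symm
      rw [h2] at h3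
      exact h h3
    unfold sbd
    rw [if_neg (fun h1 => h' h1.2.1), if_neg (fun h1 => h h1.2.1), map_zero]

include hT hc in
theorem sM_equi (t : T) (m m' : MM T) : sM c0 (actM t m) (actM t m') = actM t (sM c0 m m') := by
  refine MM_ind (p := fun m => sM c0 (actM t m) (actM t m') = actM t (sM c0 m m')) (by simp)
    (fun m1 m2 h h' => by simp only [map_add, AddMonoidHom.add_apply, h, h'])
    (fun x => ?_) m
  refine MM_ind (p := fun m' => sM c0 (actM t (Finsupp.single x 1)) (actM t m') =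
    actM t (sM c0 (Finsupp.single x 1) m')) (by simp)
    (fun m1 m2 h h' => by simp only [map_add, h, h'])
    (fun y => ?_) m'
  rw [actM_single, actM_single, sM_single, sM_single, sb_equi hT hc]

/-- the data -/
noncomputable def GD (c0 : T) (hT : Good T) (hc : c0 ∈ DD T) : GData T where
  M := MM T
  act := actM
  act_one := actM_one
  act_mul := actM_mul
  σ := sM c0
  equi := sM_equi hT hc
  two := MM_two

open Classical in
noncomputable def bbd (c0 : T) (i j : ℕ) (g d : T) : MM T :=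
  if i = j ∧ Pd c0 d then Finsupp.single (i, g * rt c0 d) 1 else 0

/-- the commutator form on basis vectors -/
noncomputable def bb (c0 : T) (x y : ℕ × T) : MM T := bbd c0 x.1 y.1 x.2 (x.2⁻¹ * y.2)

variable (hc0 : ¬ ∃ e ∈ DD T, c0 = e * e)

include hT hc hc0 in
theorem sb_add (x y : ℕ × T) : sb c0 x y + sb c0 y x = bb c0 x y := by
  unfold sb bb
  have e : y.2⁻¹ * x.2 = (x.2⁻¹ * y.2)⁻¹ := by group
  rw [e]
  unfold sbd bbd
  by_cases hi : x.1 = y.1
  · by_cases h : Pd c0 (x.2⁻¹ * y.2)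
    · have h' := Pd_inv hT hc h
      have hr := rt_inv hT hc h
      have key : y.2 * rt c0 (x.2⁻¹ * y.2)⁻¹ = x.2 * rt c0 (x.2⁻¹ * y.2) := by
        rw [hr]
        have h1 := rt_spec h
        have h2 : y.2 = x.2 * (x.2⁻¹ * y.2) := by group
        have h3 := hT.cen hc (rt c0 (x.2⁻¹ * y.2) * rt c0 (x.2⁻¹ * y.2))
        calc y.2 * (c0⁻¹ * (rt c0 (x.2⁻¹ * y.2))⁻¹)
            = x.2 * (x.2⁻¹ * y.2) * (c0⁻¹ * (rt c0 (x.2⁻¹ * y.2))⁻¹) := by rw [← h2]
          _ = x.2 * (c0 * (rt c0 (x.2⁻¹ * y.2) * rt c0 (x.2⁻¹ * y.2))) *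
                (c0⁻¹ * (rt c0 (x.2⁻¹ * y.2))⁻¹) := by rw [← h1]
          _ = x.2 * (rt c0 (x.2⁻¹ * y.2) * rt c0 (x.2⁻¹ * y.2) * c0) *
                (c0⁻¹ * (rt c0 (x.2⁻¹ * y.2))⁻¹) := by rw [← h3]
          _ = x.2 * rt c0 (x.2⁻¹ * y.2) := by group
      rcases os_xor (Pd_ne hT hc hc0 h) with ⟨h1, h2⟩ | ⟨h1, h2⟩
      · rw [if_pos ⟨hi, h, h1⟩, if_neg (fun h3 => h2 h3.2.2), if_pos ⟨hi, h⟩, add_zero]
      · rw [if_neg (fun h3 => h1 h3.2.2), if_pos ⟨hi.symm, h', h2⟩, if_pos ⟨hi, h⟩, zero_add, key, hi]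
    · have h' : ¬ Pd c0 (x.2⁻¹ * y.2)⁻¹ := by
        intro h1
        have := Pd_inv hT hc h1
        rw [inv_inv] at this
        exact h this
      rw [if_neg (fun h3 => h h3.2.1), if_neg (fun h3 => h' h3.2.1), if_neg (fun h3 => h h3.2),
        add_zero]
  · rw [if_neg (fun h3 => hi h3.1), if_neg (fun h3 => hi h3.1.symm), if_neg (fun h3 => hi h3.1),
      add_zero]

/-- the commutator form -/
noncomputable def bM (c0 : T) (m m' : MM T) : MM T := sM c0 m m' + sM c0 m' m

theorem bM_zero_left (m : MM T) : bM c0 0 m = 0 := by simp [bM]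
theorem bM_zero_right (m : MM T) : bM c0 m 0 = 0 := by simp [bM]
theorem bM_add_left (m1 m2 m' : MM T) : bM c0 (m1 + m2) m' = bM c0 m1 m' + bM c0 m2 m' := by
  simp only [bM, map_add, AddMonoidHom.add_apply]
  abel
theorem bM_add_right (m m1 m2 : MM T) : bM c0 m (m1 + m2) = bM c0 m m1 + bM c0 m m2 := by
  simp only [bM, map_add, AddMonoidHom.add_apply]
  abel
theorem bM_symm (m m' : MM T) : bM c0 m m' = bM c0 m' m := by
  unfold bM; abel

theorem β_eq (m m' : MM T) : GG.β (GD c0 hT hc) m m' = bM c0 m m' := rfl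

include hT hc hc0 in
theorem bM_single (x y : ℕ × T) : bM c0 (Finsupp.single x 1) (Finsupp.single y 1) = bb c0 x y := by
  rw [← sb_add hT hc hc0]
  unfold bM
  rw [sM_single, sM_single]

include hT in
theorem bb_bal {c : T} (hcD : c ∈ DD T) (x y : ℕ × T) :
    bb c0 x (y.1, y.2 * c⁻¹) = bb c0 (x.1, x.2 * c⁻¹) y := by
  unfold bb
  have e1 : x.2⁻¹ * (y.2 * c⁻¹) = (x.2⁻¹ * y.2) * c⁻¹ := by group
  have hcc := hT.cen hcD
  have hci := hT.cen (Subgroup.inv_mem _ hcD)
  have e2 : (x.2 * c⁻¹)⁻¹ * y.2 = ((x.2⁻¹ * y.2) * c⁻¹) * (c * c) := by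
    rw [mul_inv_rev, inv_inv, mul_assoc, hcc]; group
  dsimp only
  rw [e2, e1]
  unfold bbd
  generalize x.2⁻¹ * y.2 * c⁻¹ = d
  by_cases hi : x.1 = y.1
  · by_cases h : Pd c0 d
    · have h1 := rt_spec h
      have hr := rt_mem c0 d
      have h2 : d * (c * c) = c0 * ((rt c0 d * c) * (rt c0 d * c)) := by
        conv_lhs => rw [h1]
        rw [mul_assoc c0, mul_assoc (rt c0 d) (rt c0 d), mul_assoc (rt c0 d) c,
          ← mul_assoc c (rt c0 d) c, hcc (rt c0 d), mul_assoc (rt c0 d) c c]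
      have hrc := Subgroup.mul_mem _ hr hcD
      have h3 := rt_unique hT hrc h2
      have h4 : Pd c0 (d * (c * c)) := ⟨_, hrc, h2⟩
      rw [if_pos ⟨hi, h⟩, if_pos ⟨hi, h4⟩]
      rw [h3]
      congr 2
      rw [mul_assoc, ← mul_assoc c⁻¹, hci, mul_assoc, inv_mul_cancel, mul_one]
    · have h' : ¬ Pd c0 (d * (c * c)) := by
        rintro ⟨e, he, h1⟩
        apply h
        refine ⟨e * c⁻¹, Subgroup.mul_mem _ he (Subgroup.inv_mem _ hcD), ?_⟩
        have h2 : d = c0 * (e * e) * (c⁻¹ * c⁻¹) := by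
          rw [← h1]; group
        rw [h2, mul_assoc c0, mul_assoc e e, mul_assoc e c⁻¹, ← mul_assoc c⁻¹ e c⁻¹,
          hci e, mul_assoc e c⁻¹ c⁻¹]
      rw [if_neg (fun h3 => h h3.2), if_neg (fun h3 => h' h3.2)]
  · rw [if_neg (fun h3 => hi h3.1), if_neg (fun h3 => hi h3.1)]

include hT hc hc0 in
theorem bM_bal {c : T} (hcD : c ∈ DD T) (m m' : MM T) :
    bM c0 m (actM c m') = bM c0 (actM c m) m' := by
  refine MM_ind (p := fun m => bM c0 m (actM c m') = bM c0 (actM c m) m') ?_ ?_ ?_ m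
  · simp only [map_zero, bM_zero_left]
  · intro m1 m2 h h'
    simp only [map_add, bM_add_left, h, h']
  · intro x
    refine MM_ind (p := fun m' => bM c0 (Finsupp.single x 1) (actM c m') =
      bM c0 (actM c (Finsupp.single x 1)) m') ?_ ?_ ?_ m'
    · simp only [map_zero, bM_zero_right]
    · intro m1 m2 h h'
      simp only [map_add, bM_add_right, h, h']
    · intro y
      rw [actM_single, actM_single, bM_single hT hc hc0, bM_single hT hc hc0]
      exact bb_bal hT hcD x y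

include hc0 in
/-- the group `GG` satisfies the laws `PX` -/
theorem PX_GG : PX (GG (GD c0 hT hc)) :=
  GG.PX_of hT.cls (fun _ _ m m' => bM_bal hT hc hc0 (cm_mem_D2 trivial trivial) m m')

include hT hc hc0 in
theorem diag_add {c : T} (hcD : c ∈ DD T) (m m' : MM T) :
    bM c0 (actM c (m + m')) (m + m') = bM c0 (actM c m) m + bM c0 (actM c m') m' := by
  rw [map_add, bM_add_left, bM_add_right, bM_add_right]
  have h3 : bM c0 (actM c m') m = bM c0 (actM c m) m' := by
    rw [bM_symm]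
    exact bM_bal hT hc hc0 hcD m m'
  rw [h3]
  have h4 := MM_two (bM c0 (actM c m) m')
  rw [show bM c0 (actM c m) m + bM c0 (actM c m) m' + (bM c0 (actM c m) m' + bM c0 (actM c m') m')
    = bM c0 (actM c m) m + bM c0 (actM c m') m' +
      (bM c0 (actM c m) m' + bM c0 (actM c m) m') by abel, h4, add_zero]

include hT hc hc0 in
/-- mismatch -/
theorem diag_zero {c : T} (hcD : c ∈ DD T) (hP : ¬ Pd c0 c) (m : MM T) :
    bM c0 (actM c m) m = 0 := by
  refine MM_ind (p := fun m => bM c0 (actM c m) m = 0) ?_ ?_ ?_ m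
  · simp only [bM_zero_right]
  · intro m1 m2 h h'
    rw [diag_add hT hc hc0 hcD, h, h', add_zero]
  · intro x
    rw [actM_single, bM_single hT hc hc0]
    unfold bb
    have : (x.2 * c⁻¹)⁻¹ * x.2 = c := by group
    dsimp only
    rw [this]
    exact if_neg (fun h => hP h.2)

include hT hc hc0 in
/-- match -/
theorem diag_c0 (m : MM T) : bM c0 (actM c0 m) m = actM c0 m := by
  refine MM_ind (p := fun m => bM c0 (actM c0 m) m = actM c0 m) ?_ ?_ ?_ m
  · simp only [map_zero, bM_zero_right]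
  · intro m1 m2 h h'
    rw [diag_add hT hc hc0 hc, h, h', map_add]
  · intro x
    rw [actM_single, bM_single hT hc hc0]
    unfold bb
    have e : (x.2 * c0⁻¹)⁻¹ * x.2 = c0 := by group
    have h1 : rt c0 c0 = 1 := rt_unique hT (Subgroup.one_mem _) (by simp)
    have h2 : Pd c0 c0 := ⟨1, Subgroup.one_mem _, by simp⟩
    dsimp only
    rw [e]
    unfold bbd
    rw [h1, mul_one]
    exact if_pos ⟨rfl, h2⟩

end

end Pool.Agent.LawsFJ
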