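import Mathlib
import Pool.Agent.LawsFJ.Basic
import Pool.Agent.LawsFJ.Form

set_option autoImplicit false

/-!
# The group `T0 = F / γ₃(F)`
-/

namespace Pool.Agent.LawsFJ

open Pool.Agent.LawsFI (F C2 cm map_cm)

abbrev X (i : ℕ) : F := FreeGroup.of i

abbrev T0 := F ⧸ (A F)

def q : F →* T0 := QuotientGroup.mk' (A F)

theorem q_surj : Function.Surjective q := QuotientGroup.mk'_surjective _

theorem q_eq_one {w : F} : q w = 1 ↔ w ∈ A F := by
  unfold q; simp

theorem T0_cls (x y z : T0) : cm (cm x y) z = 1 := by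
  obtain ⟨x, rfl⟩ := q_surj x
  obtain ⟨y, rfl⟩ := q_surj y
  obtain ⟨z, rfl⟩ := q_surj z
  rw [← map_cm, ← map_cm, q_eq_one]
  exact cm_mem_D3 trivial trivial trivial

/-- Heisenberg type group -/
@[ext] structure Hs where
  v : ℕ → ℤ
  w : ℕ → ℕ → ℤ

namespace Hs

instance : Mul Hs := ⟨fun a b => ⟨fun i => a.v i + b.v i, fun i j => a.w i j + b.w i j + a.v i * b.v j⟩⟩
instance : One Hs := ⟨⟨fun _ => 0, fun _ _ => 0⟩⟩
instance : Inv Hs := ⟨fun a => ⟨fun i => - a.v i, fun i j => - a.w i j + a.v i * a.v j⟩⟩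

theorem mul_v (a b : Hs) (i : ℕ) : (a * b).v i = a.v i + b.v i := rfl
theorem mul_w (a b : Hs) (i j : ℕ) : (a * b).w i j = a.w i j + b.w i j + a.v i * b.v j := rfl
theorem one_v (i : ℕ) : (1 : Hs).v i = 0 := rfl
theorem one_w (i j : ℕ) : (1 : Hs).w i j = 0 := rfl
theorem inv_v (a : Hs) (i : ℕ) : (a⁻¹).v i = - a.v i := rfl
theorem inv_w (a : Hs) (i j : ℕ) : (a⁻¹).w i j = - a.w i j + a.v i * a.v j := rfl

instance : Group Hs := Group.ofLeftAxioms
  (by
    intro a b c
    ext
    · simp only [mul_v]; ring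
    · simp only [mul_v, mul_w]; ring)
  (by
    intro a
    ext
    · simp [mul_v, one_v]
    · simp [mul_w, one_v, one_w])
  (by
    intro a
    ext
    · simp [mul_v, one_v, inv_v]
    · simp only [mul_w, one_w, inv_v, inv_w]; ring)

theorem cm_v (a b : Hs) (i : ℕ) : (cm a b).v i = 0 := by
  simp only [cm, mul_v, inv_v]; ring

theorem cm_w (a b : Hs) (i j : ℕ) : (cm a b).w i j = a.v i * b.v j - b.v i * a.v j := by
  simp only [cm, mul_v, mul_w, inv_v, inv_w]; ring

end Hs

noncomputable def tau : F →* Hs := FreeGroup.lift (fun i => ⟨Pi.single i 1, fun _ _ => 0⟩)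

theorem tau_X (i : ℕ) : tau (X i) = ⟨Pi.single i 1, fun _ _ => 0⟩ := by simp [tau, X]

theorem tau_v_D2 {c : F} (hc : c ∈ DD F) (i : ℕ) : (tau c).v i = 0 := by
  unfold DD D2 at hc
  induction hc using Subgroup.closure_induction with
  | mem c hc =>
    obtain ⟨a, _, b, _, rfl⟩ := hc
    rw [map_cm, Hs.cm_v]
  | one => rw [map_one]; rfl
  | mul x y _ _ hx hy => rw [map_mul, Hs.mul_v, hx, hy, add_zero]
  | inv x _ hx => rw [map_inv, Hs.inv_v, hx, neg_zero]

theorem tau_D3 {c : F} (hc : c ∈ A F) : tau c = 1 := by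
  have : A F ≤ tau.ker := by
    unfold A D3
    rw [Subgroup.closure_le]
    rintro _ ⟨a, _, b, _, c, _, rfl⟩
    rw [SetLike.mem_coe, MonoidHom.mem_ker, map_cm, map_cm]
    ext i j
    · rw [Hs.cm_v]; rfl
    · rw [Hs.cm_w, Hs.cm_v, Hs.cm_v, Hs.one_w]; ring
  exact this hc

theorem om_mul {c d : F} (hc : c ∈ DD F) (i j : ℕ) :
    (tau (c * d)).w i j = (tau c).w i j + (tau d).w i j := by
  rw [map_mul, Hs.mul_w, tau_v_D2 hc]; ring

theorem om_inv {c : F} (hc : c ∈ DD F) (i j : ℕ) :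
    (tau c⁻¹).w i j = - (tau c).w i j := by
  rw [map_inv, Hs.inv_w, tau_v_D2 hc]; ring

theorem cen_T0 (x y z : T0) : cm x y * z = z * cm x y := cm_eq_one.mp (T0_cls x y z)

abbrev Kc := Subgroup.center T0

instance : CommGroup Kc :=
  { (inferInstance : Group Kc) with
    mul_comm := fun a b => Subtype.ext (Subgroup.mem_center_iff.mp b.2 a.1) }

def kcm (p : ℕ × ℕ) : Kc := ⟨cm (q (X p.1)) (q (X p.2)), by
  rw [Subgroup.mem_center_iff]
  intro g
  exact (cen_T0 _ _ g).symm⟩

noncomputable def mu : ((ℕ × ℕ) →₀ ℤ) →+ Additive Kc :=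
  Finsupp.liftAddHom (M := ℤ) (N := Additive Kc)
    (fun p => zmultiplesHom (Additive Kc) (Additive.ofMul (kcm p)))

noncomputable def muT (r : (ℕ × ℕ) →₀ ℤ) : T0 := ((mu r).toMul : Kc)

theorem muT_add (r s : (ℕ × ℕ) →₀ ℤ) : muT (r + s) = muT r * muT s := by
  simp [muT]

theorem muT_neg (r : (ℕ × ℕ) →₀ ℤ) : muT (-r) = (muT r)⁻¹ := by
  simp [muT]

theorem muT_zero : muT 0 = 1 := by simp [muT]

theorem muT_single (p : ℕ × ℕ) : muT (Finsupp.single p 1) = cm (q (X p.1)) (q (X p.2)) := by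
  simp [muT, mu, kcm]

theorem muT_mem (r : (ℕ × ℕ) →₀ ℤ) : muT r ∈ DD T0 := by
  induction r using Finsupp.induction_linear with
  | zero => rw [muT_zero]; exact Subgroup.one_mem _
  | add f g hf hg => rw [muT_add]; exact Subgroup.mul_mem _ hf hg
  | single p n =>
    have h1 : muT (Finsupp.single p 1) ∈ DD T0 := by
      rw [muT_single]; exact cm_mem_D2 trivial trivial
    have h2 : muT (Finsupp.single p n) = (muT (Finsupp.single p 1)) ^ n := by
      simp [muT, mu]
    rw [h2]
    exact Subgroup.zpow_mem _ h1 n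

def Rep (c : F) : Prop := (∀ i, (tau c).v i = 0) ∧ ∃ r : (ℕ × ℕ) →₀ ℤ, q c = muT r ∧
  (∀ i j, i < j → (tau c).w i j = r (i, j)) ∧ (∀ i j, j ≤ i → r (i, j) = 0)

theorem Rep_one : Rep 1 := by
  refine ⟨fun i => by rw [map_one]; rfl, 0, by rw [map_one, muT_zero], ?_, ?_⟩
  · intro i j _; rw [map_one]; rfl
  · intro i j _; rfl

theorem Rep_mul {c d : F} (hc : Rep c) (hd : Rep d) : Rep (c * d) := by
  obtain ⟨h1, r, h2, h3, h4⟩ := hc
  obtain ⟨h1', r', h2', h3', h4'⟩ := hd
  refine ⟨fun i => by rw [map_mul, Hs.mul_v, h1, h1', add_zero], r + r',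
    by rw [map_mul, h2, h2', muT_add], ?_, ?_⟩
  · intro i j hij
    rw [map_mul, Hs.mul_w, h1, h3 i j hij, h3' i j hij]
    simp
  · intro i j hij
    simp [h4 i j hij, h4' i j hij]

theorem Rep_inv {c : F} (hc : Rep c) : Rep c⁻¹ := by
  obtain ⟨h1, r, h2, h3, h4⟩ := hc
  refine ⟨fun i => by rw [map_inv, Hs.inv_v, h1, neg_zero], -r,
    by rw [map_inv, h2, muT_neg], ?_, ?_⟩
  · intro i j hij
    rw [map_inv, Hs.inv_w, h1, h3 i j hij]
    simp
  · intro i j hij
    simp [h4 i j hij]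

/-- conjugation does not change anything -/
theorem Rep_conj {c : F} (g : F) (hc : Rep c) : Rep (g * c * g⁻¹) := by
  obtain ⟨h1, r, h2, h3, h4⟩ := hc
  have hcen : muT r ∈ Subgroup.center T0 := ((mu r).toMul : Kc).2
  have e : tau (g * c * g⁻¹) = tau c := by
    rw [map_mul, map_mul, map_inv]
    ext i j
    · simp only [Hs.mul_v, Hs.inv_v]; ring
    · simp only [Hs.mul_v, Hs.mul_w, Hs.inv_v, Hs.inv_w, h1]; ring
  refine ⟨fun i => by rw [e]; exact h1 i, r, ?_, fun i j hij => by rw [e]; exact h3 i j hij, h4⟩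
  rw [map_mul, map_mul, map_inv, h2, Subgroup.mem_center_iff.mp hcen (q g), mul_inv_cancel_right]

theorem Rep_gen (i j : ℕ) : Rep (cm (X i) (X j)) := by
  refine ⟨fun k => by rw [map_cm, Hs.cm_v], ?_⟩
  rcases lt_trichotomy i j with h | h | h
  · refine ⟨Finsupp.single (i, j) 1, by rw [muT_single, map_cm], ?_, ?_⟩
    · intro a b hab
      rw [map_cm, Hs.cm_w, tau_X, tau_X]
      by_cases ha : a = i
      · subst ha
        by_cases hb : b = j
        · subst hb
          simp [h.ne, h.ne']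
        · have : ¬ ((a, j) = (a, b)) := by
            intro h; exact hb (Prod.mk.inj h).2.symm
          rw [Finsupp.single_eq_of_ne (Ne.symm this)]
          simp [Pi.single_apply, hb, h.ne]
      · have : ¬ ((i, j) = (a, b)) := by
          intro h; exact ha (Prod.mk.inj h).1.symm
        rw [Finsupp.single_eq_of_ne (Ne.symm this)]
        by_cases hb : b = i
        · subst hb
          have : ¬ (a = j) := by omega
          simp [Pi.single_apply, ha, this]
        · simp [Pi.single_apply, ha, hb]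
    · intro a b hab
      apply Finsupp.single_eq_of_ne
      intro h2
      have := (Prod.mk.inj h2)
      omega
  · subst h
    refine ⟨0, by rw [cm_self, map_one, muT_zero], ?_, fun _ _ _ => rfl⟩
    intro a b _
    rw [cm_self, map_one]; rfl
  · refine ⟨- Finsupp.single (j, i) 1, by rw [muT_neg, muT_single, map_cm, cm_swap], ?_, ?_⟩
    · intro a b hab
      rw [map_cm, Hs.cm_w, tau_X, tau_X, Finsupp.neg_apply]
      by_cases ha : a = j
      · subst ha
        by_cases hb : b = i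
        · subst hb
          simp [h.ne, h.ne']
        · have : ¬ ((a, i) = (a, b)) := by
            intro h; exact hb (Prod.mk.inj h).2.symm
          rw [Finsupp.single_eq_of_ne (Ne.symm this)]
          simp [Pi.single_apply, hb, h.ne]
      · have : ¬ ((j, i) = (a, b)) := by
          intro h; exact ha (Prod.mk.inj h).1.symm
        rw [Finsupp.single_eq_of_ne (Ne.symm this)]
        by_cases hb : b = j
        · subst hb
          have : ¬ (a = i) := by omega
          simp [Pi.single_apply, ha, this]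
        · simp [Pi.single_apply, ha, hb]
    · intro a b hab
      rw [Finsupp.neg_apply, Finsupp.single_eq_of_ne, neg_zero]
      intro h2
      have := (Prod.mk.inj h2)
      omega

theorem Rep_cm (u v : F) : Rep (cm u v) := by
  induction u using FreeGroup.induction_on with
  | C1 => rw [cm_one_left]; exact Rep_one
  | of i =>
    change Rep (cm (X i) v)
    induction v using FreeGroup.induction_on with
    | C1 => rw [cm_one_right]; exact Rep_one
    | of j => exact Rep_gen i j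
    | inv_of j ih =>
      rw [cm_inv_right]
      have := Rep_conj (FreeGroup.of j)⁻¹ (Rep_inv ih)
      rwa [inv_inv] at this
    | mul x y hx hy =>
      rw [cm_mul_right]
      exact Rep_mul hx (Rep_conj x hy)
  | inv_of i ih =>
    rw [cm_inv_left]
    have := Rep_conj (FreeGroup.of i)⁻¹ (Rep_inv ih)
    rwa [inv_inv] at this
  | mul x y hx hy =>
    rw [cm_mul_left]
    exact Rep_mul (Rep_conj x hy) hx

theorem Rep_D2 {c : F} (hc : c ∈ DD F) : Rep c := by
  unfold DD D2 at hc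
  induction hc using Subgroup.closure_induction with
  | mem c hc =>
    obtain ⟨a, _, b, _, rfl⟩ := hc
    exact Rep_cm a b
  | one => exact Rep_one
  | mul x y _ _ hx hy => exact Rep_mul hx hy
  | inv x _ hx => exact Rep_inv hx

/-- (R0) -/
theorem mem_A_of_om {c : F} (hc : c ∈ DD F) (h : ∀ i j, (tau c).w i j = 0) : c ∈ A F := by
  obtain ⟨_, r, h2, h3, h4⟩ := Rep_D2 hc
  have hr : r = 0 := by
    ext ⟨i, j⟩
    rcases lt_or_ge i j with hij | hij
    · rw [← h3 i j hij, h]; rfl
    · rw [h4 i j hij]; rfl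
  rw [← q_eq_one, h2, hr, muT_zero]

/-- (R1) -/
theorem square_of_even {c : F} (hc : c ∈ DD F) (h : ∀ i j, (2 : ℤ) ∣ (tau c).w i j) :
    ∃ e ∈ DD T0, q c = e * e := by
  obtain ⟨_, r, h2, h3, h4⟩ := Rep_D2 hc
  have hdiv : ∀ p, (2 : ℤ) ∣ r p := by
    rintro ⟨i, j⟩
    rcases lt_or_ge i j with hij | hij
    · rw [← h3 i j hij]; exact h i j
    · rw [h4 i j hij]; exact dvd_zero _
  let s : (ℕ × ℕ) →₀ ℤ := r.mapRange (fun n => n / 2) (by norm_num)
  have hs : r = s + s := by
    ext p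
    simp only [s, Finsupp.add_apply, Finsupp.mapRange_apply]
    obtain ⟨k, hk⟩ := hdiv p
    rw [hk]
    omega
  exact ⟨muT s, muT_mem s, by rw [h2, hs, muT_add]⟩

theorem good_T0 : Good T0 where
  cls := T0_cls
  sq := by
    intro e he e' he' h
    obtain ⟨c, hc, rfl⟩ := D2_lift q q_surj he
    obtain ⟨d, hd, rfl⟩ := D2_lift q q_surj he'
    rw [← map_mul, ← map_mul] at h
    have h1 : (c * c)⁻¹ * (d * d) ∈ A F := by
      rw [← q_eq_one, map_mul, map_inv, h]; simp
    have h2 := tau_D3 h1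
    have hcc := Subgroup.mul_mem _ hc hc
    have h3 : ∀ i j, (tau c).w i j = (tau d).w i j := by
      intro i j
      have h4 : (tau ((c * c)⁻¹ * (d * d))).w i j = 0 := by rw [h2]; rfl
      rw [om_mul (Subgroup.inv_mem _ hcc), om_inv hcc, om_mul hc, om_mul hd] at h4
      omega
    have h5 : c⁻¹ * d ∈ A F := by
      apply mem_A_of_om (Subgroup.mul_mem _ (Subgroup.inv_mem _ hc) hd)
      intro i j
      rw [om_mul (Subgroup.inv_mem _ hc), om_inv hc, h3]; ring
    rw [← q_eq_one, map_mul, map_inv, inv_mul_eq_one] at h5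
    exact h5

/-! ### contraction with a functional -/

/-- the functional on `F` -/
noncomputable def lamL (l : ℕ → ZMod 2) (n : ℕ) : F →* C2 :=
  FreeGroup.lift (fun i => Multiplicative.ofAdd (if i < n then l i else 0))

theorem lamL_eq (l : ℕ → ZMod 2) (n : ℕ) (w : F) :
    (lamL l n w).toAdd = ∑ i ∈ Finset.range n, l i * ((tau w).v i : ZMod 2) := by
  induction w using FreeGroup.induction_on with
  | C1 => rw [map_one (lamL l n), map_one tau]; simp [Hs.one_v]
  | of k =>
    have h1 : lamL l n (FreeGroup.of k) = Multiplicative.ofAdd (if k < n then l k else 0) := by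
      simp [lamL]
    have h2 : tau (FreeGroup.of k) = ⟨Pi.single k 1, fun _ _ => 0⟩ := tau_X k
    rw [h1, h2]
    simp only [toAdd_ofAdd, Pi.single_apply]
    by_cases hk : k < n
    · rw [if_pos hk, Finset.sum_eq_single k]
      · simp
      · intro b _ hb; simp [hb]
      · intro h; exact absurd (Finset.mem_range.mpr hk) h
    · rw [if_neg hk]
      symm
      apply Finset.sum_eq_zero
      intro i hi
      have : i ≠ k := by
        intro h; subst h; exact hk (Finset.mem_range.mp hi)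
      simp [this]
  | inv_of k ih =>
    rw [map_inv, toAdd_inv, ih, map_inv]
    simp only [Hs.inv_v, Int.cast_neg, mul_neg, Finset.sum_neg_distrib]
  | mul x y hx hy =>
    rw [map_mul, toAdd_mul, hx, hy, map_mul, ← Finset.sum_add_distrib]
    apply Finset.sum_congr rfl
    intro i _
    rw [Hs.mul_v]; push_cast; ring

noncomputable def ctr (l : ℕ → ZMod 2) (n : ℕ) (j : ℕ) (c : F) : ZMod 2 :=
  ∑ i ∈ Finset.range n, l i * ((tau c).w i j : ZMod 2)

theorem ctr_mul (l : ℕ → ZMod 2) (n j : ℕ) {c d : F} (hc : c ∈ DD F) :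
    ctr l n j (c * d) = ctr l n j c + ctr l n j d := by
  unfold ctr
  rw [← Finset.sum_add_distrib]
  apply Finset.sum_congr rfl
  intro i _
  rw [om_mul hc]; push_cast; ring

theorem ctr_inv (l : ℕ → ZMod 2) (n j : ℕ) {c : F} (hc : c ∈ DD F) :
    ctr l n j c⁻¹ = - ctr l n j c := by
  unfold ctr
  rw [← Finset.sum_neg_distrib]
  apply Finset.sum_congr rfl
  intro i _
  rw [om_inv hc]; push_cast; ring

theorem ctr_A (l : ℕ → ZMod 2) (n j : ℕ) {c : F} (hc : c ∈ A F) :
    ctr l n j c = 0 := by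
  unfold ctr
  apply Finset.sum_eq_zero
  intro i _
  rw [tau_D3 hc, Hs.one_w]; simp

theorem ctr_ker (l : ℕ → ZMod 2) (n j : ℕ) {c : F} (hc : c ∈ D2 (lamL l n).ker) :
    ctr l n j c = 0 := by
  have key : c ∈ DD F ∧ ctr l n j c = 0 := by
    unfold D2 at hc
    induction hc using Subgroup.closure_induction with
    | mem c hc =>
      obtain ⟨a, ha, b, hb, rfl⟩ := hc
      refine ⟨cm_mem_D2 trivial trivial, ?_⟩
      rw [MonoidHom.mem_ker] at ha hb
      have ha' : ∑ i ∈ Finset.range n, l i * ((tau a).v i : ZMod 2) = 0 := by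
        rw [← lamL_eq, ha]; rfl
      have hb' : ∑ i ∈ Finset.range n, l i * ((tau b).v i : ZMod 2) = 0 := by
        rw [← lamL_eq, hb]; rfl
      unfold ctr
      have : ∀ i, l i * (((tau (cm a b)).w i j : ℤ) : ZMod 2) =
          (l i * ((tau a).v i : ZMod 2)) * ((tau b).v j : ZMod 2) -
          (l i * ((tau b).v i : ZMod 2)) * ((tau a).v j : ZMod 2) := by
        intro i
        rw [map_cm, Hs.cm_w]; push_cast; ring
      simp only [this, Finset.sum_sub_distrib, ← Finset.sum_mul, ha', hb']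
      ring
    | one => exact ⟨Subgroup.one_mem _, ctr_A _ _ _ (Subgroup.one_mem _)⟩
    | mul x y _ _ hx hy =>
      exact ⟨Subgroup.mul_mem _ hx.1 hy.1, by rw [ctr_mul _ _ _ hx.1, hx.2, hy.2, add_zero]⟩
    | inv x _ hx =>
      exact ⟨Subgroup.inv_mem _ hx.1, by rw [ctr_inv _ _ _ hx.1, hx.2, neg_zero]⟩
  exact key.2

/-- contraction is an invariant modulo squares -/
theorem ctr_Pd (l : ℕ → ZMod 2) (n j : ℕ) {c0 c : F} (hc0 : c0 ∈ DD F)
    (h : Pd (q c0) (q c)) : ctr l n j c = ctr l n j c0 := by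
  obtain ⟨e, he, h1⟩ := h
  obtain ⟨d, hd, rfl⟩ := D2_lift q q_surj he
  have h2 : (c0 * (d * d))⁻¹ * c ∈ A F := by
    rw [← q_eq_one, map_mul, map_inv, h1, map_mul, map_mul]; simp
  have hcd := Subgroup.mul_mem _ hc0 (Subgroup.mul_mem _ hd hd)
  have h3 : c = (c0 * (d * d)) * ((c0 * (d * d))⁻¹ * c) := by group
  rw [h3, ctr_mul _ _ _ hcd, ctr_A _ _ _ h2, ctr_mul _ _ _ hc0, ctr_mul _ _ _ hd,
    Pool.Agent.LawsFI.z2]
  ring

theorem ctr_square (l : ℕ → ZMod 2) (n j : ℕ) {c : F}
    (h : ∃ e ∈ DD T0, q c = e * e) : ctr l n j c = 0 := by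
  obtain ⟨e, he, h1⟩ := h
  have : Pd (q 1) (q c) := ⟨e, he, by rw [map_one, one_mul]; exact h1⟩
  rw [ctr_Pd l n j (Subgroup.one_mem _) this]
  exact ctr_A _ _ _ (Subgroup.one_mem _)

end Pool.Agent.LawsFJ
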