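import Mathlib
import Pool.Agent.LawsFJ.Basic
import Pool.Agent.LawsFJ.Form
import Pool.Agent.LawsFJ.Tstr

set_option autoImplicit false

/-!
# The mod 2 Magnus embedding for `γ₃(F)`
-/

namespace Pool.Agent.LawsFJ

open Pool.Agent.LawsFI (F C2 cm map_cm)

def Sq : Subgroup F := Subgroup.closure {x : F | ∃ s ∈ A F, x = s * s}

theorem Sq_conj (g x : F) (hx : x ∈ Sq) : g * x * g⁻¹ ∈ Sq := by
  unfold Sq at *
  induction hx using Subgroup.closure_induction with
  | mem x hx =>
    obtain ⟨s, hs, rfl⟩ := hx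
    apply Subgroup.subset_closure
    exact ⟨g * s * g⁻¹, D3_conj g hs, by group⟩
  | one => simp
  | mul x y _ _ hx hy =>
    have : g * (x * y) * g⁻¹ = (g * x * g⁻¹) * (g * y * g⁻¹) := by group
    rw [this]
    exact Subgroup.mul_mem _ hx hy
  | inv x _ hx =>
    have : g * x⁻¹ * g⁻¹ = (g * x * g⁻¹)⁻¹ := by group
    rw [this]
    exact Subgroup.inv_mem _ hx

def NN : Subgroup ↥(A F) := Sq.subgroupOf (A F)

instance : NN.Normal := ⟨fun x hx g => by
  unfold NN at *
  rw [Subgroup.mem_subgroupOf] at *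
  exact Sq_conj _ _ hx⟩

abbrev Qg := ↥(A F) ⧸ NN

theorem Qg_sq (x : Qg) : x * x = 1 := by
  obtain ⟨a, rfl⟩ := QuotientGroup.mk_surjective x
  rw [← QuotientGroup.mk_mul, QuotientGroup.eq_one_iff]
  unfold NN
  rw [Subgroup.mem_subgroupOf]
  exact Subgroup.subset_closure ⟨a.1, a.2, rfl⟩

instance : CommGroup Qg :=
  { (inferInstance : Group Qg) with
    mul_comm := fun a b => by
      have h1 := Qg_sq (a * b)
      have ha := eq_inv_of_mul_eq_one_left (Qg_sq a)
      have hb := eq_inv_of_mul_eq_one_left (Qg_sq b)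
      have h2 := eq_inv_of_mul_eq_one_left h1
      calc a * b = (a * b)⁻¹ := h2
        _ = b⁻¹ * a⁻¹ := mul_inv_rev a b
        _ = b * a := by rw [← ha, ← hb] }

abbrev Ab := Additive Qg

noncomputable instance : Module (ZMod 2) Ab := AddCommGroup.zmodModule (n := 2) (by
  intro x
  rw [two_nsmul]
  exact Qg_sq x.toMul)

open Classical in
noncomputable def sec (t : T0) : F := if t = 1 then 1 else Function.surjInv q_surj t

theorem q_sec (t : T0) : q (sec t) = t := by
  unfold sec
  split_ifs with h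
  · rw [h, map_one]
  · exact Function.surjInv_eq q_surj t

theorem sec_one : sec 1 = 1 := by
  unfold sec; rw [if_pos rfl]

theorem del_mem (w : F) (t : T0) : sec t * w * (sec (t * q w))⁻¹ ∈ A F := by
  rw [← q_eq_one, map_mul, map_mul, map_inv, q_sec, q_sec]
  simp

noncomputable def del (w : F) (t : T0) : Ab :=
  Additive.ofMul (QuotientGroup.mk (⟨sec t * w * (sec (t * q w))⁻¹, del_mem w t⟩ : ↥(A F)))

theorem del_mul (w w' : F) (t : T0) : del (w * w') t = del w t + del w' (t * q w) := by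
  unfold del
  rw [← ofMul_mul, ← QuotientGroup.mk_mul]
  congr 2
  apply Subtype.ext
  simp only [Subgroup.coe_mul, map_mul, mul_assoc, inv_mul_cancel_left]

theorem del_one (t : T0) : del 1 t = 0 := by
  have h := del_mul 1 1 t
  rw [map_one, mul_one, mul_one] at h
  have : del 1 t + 0 = del 1 t + del 1 t := by rw [add_zero]; exact h
  exact (add_left_cancel this).symm

theorem del_inv (w : F) (t : T0) : del w⁻¹ t = - del w (t * (q w)⁻¹) := by
  have h := del_mul w w⁻¹ (t * (q w)⁻¹)
  rw [mul_inv_cancel, del_one, inv_mul_cancel_right] at h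
  exact eq_neg_of_add_eq_zero_right h.symm

noncomputable def Lam (t : T0) : MM T0 →ₗ[ZMod 2] Ab :=
  Finsupp.linearCombination (ZMod 2) (fun x : ℕ × T0 => del (X x.1) (t * x.2⁻¹))

theorem Lam_single (t : T0) (x : ℕ × T0) :
    Lam t (Finsupp.single x 1) = del (X x.1) (t * x.2⁻¹) := by
  simp [Lam]

theorem Lam_act (t p : T0) (m : MM T0) : Lam t (actM p m) = Lam (t * p) m := by
  refine MM_ind (p := fun m => Lam t (actM p m) = Lam (t * p) m) ?_ ?_ ?_ m
  · simp only [map_zero]
  · intro m1 m2 h h'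
    simp only [map_add, h, h']
  · intro x
    rw [actM_single, Lam_single, Lam_single]
    dsimp only
    congr 1
    group

section

variable {c0 : T0} (hc : c0 ∈ DD T0)

noncomputable def Dh : F →* GG (GD c0 good_T0 hc) :=
  FreeGroup.lift (fun i => ⟨(Finsupp.single (i, 1) 1 : MM T0), (0 : MM T0), q (X i)⟩)

theorem Dh_of (i : ℕ) : Dh hc (FreeGroup.of i) =
    ⟨(Finsupp.single (i, 1) 1 : MM T0), (0 : MM T0), q (X i)⟩ := by
  simp [Dh]

theorem Dh_t (w : F) : (Dh hc w).t = q w := by
  have : (GG.proj).comp (Dh hc) = q := by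
    ext i
    simp only [MonoidHom.comp_apply, Dh_of]
    rfl
  exact DFunLike.congr_fun this w

/-- the derivative -/
noncomputable def Dm (w : F) : MM T0 := (Dh hc w).m

theorem Dm_one : Dm hc 1 = 0 := by
  unfold Dm; rw [map_one]; rfl

theorem Dm_of (i : ℕ) : Dm hc (FreeGroup.of i) = Finsupp.single (i, 1) 1 := by
  unfold Dm; rw [Dh_of]

theorem Dm_mul (x y : F) : Dm hc (x * y) = Dm hc x + actM (q x) (Dm hc y) := by
  unfold Dm
  rw [map_mul, GG.mul_m, Dh_t]
  rfl

theorem Dm_inv (x : F) : Dm hc x⁻¹ = - actM (q x)⁻¹ (Dm hc x) := by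
  unfold Dm
  rw [map_inv, GG.inv_m, Dh_t]
  rfl

theorem del_eq (w : F) (t : T0) : del w t = Lam t (Dm hc w) := by
  revert t
  induction w using FreeGroup.induction_on with
  | C1 =>
    intro t
    rw [del_one, Dm_one, map_zero]
  | of i =>
    intro t
    rw [Dm_of, Lam_single]
    dsimp only
    rw [inv_one, mul_one]
  | inv_of i ih =>
    intro t
    rw [del_inv, ih, Dm_inv, map_neg, Lam_act]
  | mul x y hx hy =>
    intro t
    rw [del_mul, hx, hy, Dm_mul, map_add, Lam_act]

/-- The Magnus embedding: elements of `γ₃(F)` with trivial derivative are products of squares. -/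
theorem magnus {a : F} (ha : a ∈ A F) (h : Dm hc a = 0) : a ∈ Sq := by
  have h1 := del_eq hc a 1
  rw [h, map_zero] at h1
  unfold del at h1
  have h2 : (QuotientGroup.mk (⟨sec 1 * a * (sec (1 * q a))⁻¹, del_mem a 1⟩ : ↥(A F)) : Qg) = 1 := h1
  rw [QuotientGroup.eq_one_iff] at h2
  unfold NN at h2
  rw [Subgroup.mem_subgroupOf] at h2
  have h3 : q a = 1 := q_eq_one.mpr ha
  simpa [h3, sec_one] using h2

end

end Pool.Agent.LawsFJ
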