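import Mathlib
import Pool.Agent.LawsFI.Core
import Pool.Agent.LawsFI.Words
import Pool.Agent.LawsFJ.Basic
import Pool.Agent.LawsFJ.Form
import Pool.Agent.LawsFJ.Tstr
import Pool.Agent.LawsFJ.Magnus

set_option autoImplicit false

namespace Pool.Agent.LawsFJ

open Pool.Agent.LawsFI (F C2 cm map_cm lam0 xi xi_ne C2_cases sh rho lam0_sh rho_sh V)

/-! ### lifting -/

theorem D2_lift' {T T' : Type} [Group T] [Group T'] (f : T →* T') (N : Subgroup T)
    (N' : Subgroup T') (h : ∀ x ∈ N', ∃ y ∈ N, f y = x) {c : T'} (hc : c ∈ D2 N') :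
    ∃ d ∈ D2 N, f d = c := by
  have : D2 N' ≤ (D2 N).map f := by
    conv_lhs => unfold D2
    rw [Subgroup.closure_le]
    rintro _ ⟨a, ha, b, hb, rfl⟩
    obtain ⟨a', ha', rfl⟩ := h a ha
    obtain ⟨b', hb', rfl⟩ := h b hb
    exact ⟨cm a' b', cm_mem_D2 ha' hb', map_cm f a' b'⟩
  obtain ⟨d, hd, rfl⟩ := this hc
  exact ⟨d, hd, rfl⟩

theorem D3_lift' {T T' : Type} [Group T] [Group T'] (f : T →* T') (N : Subgroup T)
    (N' : Subgroup T') (h : ∀ x ∈ N', ∃ y ∈ N, f y = x) {c : T'} (hc : c ∈ D3 N') :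
    ∃ d ∈ D3 N, f d = c := by
  have : D3 N' ≤ (D3 N).map f := by
    conv_lhs => unfold D3
    rw [Subgroup.closure_le]
    rintro _ ⟨a, ha, b, hb, c, hc, rfl⟩
    obtain ⟨a', ha', rfl⟩ := h a ha
    obtain ⟨b', hb', rfl⟩ := h b hb
    obtain ⟨c', hc', rfl⟩ := h c hc
    exact ⟨cm (cm a' b') c', cm_mem_D3 ha' hb' hc', by rw [map_cm, map_cm]⟩
  obtain ⟨d, hd, rfl⟩ := this hc
  exact ⟨d, hd, rfl⟩

theorem PX_quot {T T' : Type} [Group T] [Group T'] (f : T →* T') (hf : Function.Surjective f)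
    (h : ∀ v : ℕ → T, f (wX1 v) = 1 ∧ f (wX2 v) = 1 ∧ f (wX3 v) = 1) : PX T' := by
  intro v
  choose v' hv' using fun n => hf (v n)
  have e : v = fun j => f (v' j) := by funext j; exact (hv' j).symm
  rw [e, ← map_wX1, ← map_wX2, ← map_wX3]
  exact h v'

theorem PX_sub {T T' : Type} [Group T] [Group T'] (f : T →* T') (hf : Function.Injective f)
    (h : PX T') : PX T := by
  intro v
  refine ⟨?_, ?_, ?_⟩
  · apply hf; rw [map_wX1, map_one]; exact (h _).1
  · apply hf; rw [map_wX2, map_one]; exact (h _).2.1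
  · apply hf; rw [map_wX3, map_one]; exact (h _).2.2

/-! ### the group `G` -/

def N0 : Subgroup F := lam0.ker

def Rgen : Set F := {w | ∃ v : ℕ → F, w = wX1 v ∨ w = wX2 v ∨ w = wX3 v} ∪
  {w | ∃ c ∈ D2 N0, ∃ a ∈ D3 N0, w = hh c a}

def R0 : Subgroup F := Subgroup.normalClosure Rgen

instance : R0.Normal := Subgroup.normalClosure_normal

theorem R0_le {T : Type} [Group T] (hX : PX T) (N : Subgroup T) (hH : PHs N) (g : F →* T)
    (hg : ∀ x ∈ N0, g x ∈ N) : R0 ≤ g.ker := by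
  apply Subgroup.normalClosure_le_normal
  rintro w (⟨v, rfl | rfl | rfl⟩ | ⟨c, hc, a, ha, rfl⟩)
  · rw [SetLike.mem_coe, MonoidHom.mem_ker, map_wX1]; exact (hX _).1
  · rw [SetLike.mem_coe, MonoidHom.mem_ker, map_wX2]; exact (hX _).2.1
  · rw [SetLike.mem_coe, MonoidHom.mem_ker, map_wX3]; exact (hX _).2.2
  · rw [SetLike.mem_coe, MonoidHom.mem_ker, map_hh]
    exact hH _ (D2_map g hg hc) _ (D3_map g hg ha)

theorem C2_cm (a b : C2) : cm a b = 1 := by
  rw [cm_eq_one, mul_comm]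

theorem PX_C2 : PX C2 := by
  intro v
  refine ⟨C2_cm _ _, ?_, ?_⟩
  · unfold wX2; rw [C2_cm, mul_one]
  · unfold wX3; rw [C2_cm, C2_cm]; simp

theorem R0_le_ker : R0 ≤ lam0.ker := R0_le PX_C2 ⊤ (fun _ _ _ _ => C2_cm _ _) lam0 (fun _ _ => trivial)

abbrev G := F ⧸ R0

def mkG : F →* G := QuotientGroup.mk' R0

theorem mkG_surj : Function.Surjective mkG := QuotientGroup.mk'_surjective _

theorem mkG_eq_one {w : F} : mkG w = 1 ↔ w ∈ R0 := by
  unfold mkG; simp

def lamG : G →* C2 := QuotientGroup.lift R0 lam0 (fun _ hx => R0_le_ker hx)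

theorem lamG_mk (w : F) : lamG (mkG w) = lam0 w := rfl

def H : Subgroup G := lamG.ker

instance : H.FiniteIndex := by
  unfold H
  infer_instance

theorem PX_G : PX G := by
  apply PX_quot mkG mkG_surj
  intro v
  refine ⟨?_, ?_, ?_⟩
  · rw [mkG_eq_one]
    exact Subgroup.subset_normalClosure (Or.inl ⟨v, Or.inl rfl⟩)
  · rw [mkG_eq_one]
    exact Subgroup.subset_normalClosure (Or.inl ⟨v, Or.inr (Or.inl rfl)⟩)
  · rw [mkG_eq_one]
    exact Subgroup.subset_normalClosure (Or.inl ⟨v, Or.inr (Or.inr rfl)⟩)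

theorem PHs_H : PHs H := by
  intro c hc a ha
  have hl : ∀ x ∈ H, ∃ y ∈ N0, mkG y = x := by
    intro x hx
    obtain ⟨y, rfl⟩ := mkG_surj x
    exact ⟨y, hx, rfl⟩
  obtain ⟨c', hc', rfl⟩ := D2_lift' mkG N0 H hl hc
  obtain ⟨a', ha', rfl⟩ := D3_lift' mkG N0 H hl ha
  change hh (mkG c') (mkG a') = 1
  rw [← map_hh, mkG_eq_one]
  exact Subgroup.subset_normalClosure (Or.inr ⟨c', hc', a', ha', rfl⟩)

/-- groups of the variety with a subgroup of index ≤ 2 satisfying `PHs` satisfy all laws of `G` -/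
theorem law_transfer {T : Type} [Group T] (hX : PX T) (lam : T →* C2) (hT : PHs lam.ker)
    (w : F) (hw : ∀ φ : F →* G, φ w = 1) (g : F →* T) : g w = 1 := by
  classical
  obtain ⟨t, ht⟩ : ∃ t : T, (lam t = xi) ∨ (t = 1 ∧ ∀ s, lam s = 1) := by
    by_cases h : ∃ t, lam t = xi
    · obtain ⟨t, ht⟩ := h
      exact ⟨t, Or.inl ht⟩
    · refine ⟨1, Or.inr ⟨rfl, fun s => ?_⟩⟩
      rcases C2_cases (lam s) with h1 | h1
      · exact h1
      · exact absurd ⟨s, h1⟩ h
  let h : F →* F := FreeGroup.lift (fun i =>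
    if lam (g (FreeGroup.of i)) = 1 then FreeGroup.of (i+1) else FreeGroup.of (i+1) * FreeGroup.of 0)
  let g' : F →* T := FreeGroup.lift (fun i =>
    if i = 0 then t else
      if lam (g (FreeGroup.of (i-1))) = 1 then g (FreeGroup.of (i-1))
      else g (FreeGroup.of (i-1)) * t⁻¹)
  have hcomp : g'.comp h = g := by
    ext i
    by_cases hi : lam (g (FreeGroup.of i)) = 1
    · simp [h, g', hi]
    · simp [h, g', hi]
  have hker : ∀ n : F, lam0 n = 1 → lam (g' n) = 1 := by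
    rcases ht with ht | ⟨_, ht⟩
    · have : lam.comp g' = lam0 := by
        ext i
        rcases Nat.eq_zero_or_pos i with hi | hi
        · subst hi
          simp [g', lam0, ht]
        · obtain ⟨j, rfl⟩ := Nat.exists_eq_succ_of_ne_zero hi.ne'
          by_cases hj : lam (g (FreeGroup.of j)) = 1
          · simp [g', lam0, hj]
          · have hj' : lam (g (FreeGroup.of j)) = xi := by
              rcases C2_cases (lam (g (FreeGroup.of j))) with h1 | h1
              · exact absurd h1 hj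
              · exact h1
            simp [g', lam0, hj', xi_ne, ht]
      intro n hn
      rw [← hn, ← this]
      rfl
    · intro n _
      exact ht _
  have hR : R0 ≤ g'.ker := R0_le hX lam.ker hT g' (fun x hx => hker x hx)
  have h1 := hw (mkG.comp h)
  have h2 : h w ∈ R0 := mkG_eq_one.mp h1
  have h3 : g' (h w) = 1 := hR h2
  rw [← hcomp]
  exact h3

/-- laws of `H` hold in all groups satisfying `PX` and `PHs ⊤` -/
theorem lawH_imp (w : F) (hw : ∀ φ : F →* H, φ w = 1) {T : Type} [Group T] (hX : PX T)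
    (hH : PHs (⊤ : Subgroup T)) (f : F →* T) : f w = 1 := by
  let φ : F →* H := (mkG.comp sh).codRestrict H (fun x => by
    change lamG (mkG (sh x)) = 1
    rw [lamG_mk, lam0_sh])
  have h1 := hw φ
  have h2 : mkG (sh w) = 1 := by
    have := congrArg Subtype.val h1
    simpa [φ] using this
  rw [mkG_eq_one] at h2
  have h3 : R0 ≤ (f.comp rho).ker := R0_le hX ⊤ hH (f.comp rho) (fun _ _ => trivial)
  have h4 := h3 h2
  rw [MonoidHom.mem_ker, MonoidHom.comp_apply, rho_sh] at h4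
  exact h4

theorem hh_law_H {c a : F} (hc : c ∈ DD F) (ha : a ∈ A F) (φ : F →* H) : φ (hh c a) = 1 := by
  apply H.subtype_injective
  have h : (H.subtype.comp φ) (hh c a) = 1 := by
    rw [map_hh]
    have hm : ∀ x ∈ (⊤ : Subgroup F), (H.subtype.comp φ) x ∈ H := fun x _ => (φ x).2
    exact PHs_H _ (D2_map _ hm hc) _ (D3_map _ hm ha)
  rw [map_one]
  exact h

/-! ### detection groups -/

theorem q_mem {c0 : F} (hc : c0 ∈ DD F) : q c0 ∈ DD T0 :=
  D2_map q (N' := ⊤) (fun _ _ => trivial) hc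

abbrev GF {c0 : F} (hc : c0 ∈ DD F) := GG (GD (q c0) good_T0 (q_mem hc))

noncomputable abbrev DF {c0 : F} (hc : c0 ∈ DD F) : F →* GF hc := Dh (q_mem hc)

/-- not a square modulo `γ₃` -/
def NS (c0 : F) : Prop := ¬ ∃ e ∈ DD T0, q c0 = e * e

theorem PX_GF {c0 : F} (hc : c0 ∈ DD F) (hn : NS c0) : PX (GF hc) :=
  PX_GG good_T0 (q_mem hc) hn

theorem A_T0 {x : T0} (hx : x ∈ A T0) : x = 1 := by
  have : D3 (⊤ : Subgroup T0) ≤ ⊥ := D3_le (fun a _ b _ c _ => T0_cls a b c)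
  exact this hx

noncomputable def lamT (l : ℕ → ZMod 2) (n : ℕ) : T0 →* C2 :=
  QuotientGroup.lift (A F) (lamL l n) (fun x hx => by
    have : D3 (⊤ : Subgroup F) ≤ (lamL l n).ker := D3_le (fun a _ b _ c _ => by
      rw [MonoidHom.mem_ker, map_cm, C2_cm])
    exact this hx)

theorem lamT_q (l : ℕ → ZMod 2) (n : ℕ) (w : F) : lamT l n (q w) = lamL l n w := rfl

theorem PHs_GF {c0 : F} (hc : c0 ∈ DD F) (hn : NS c0) (l : ℕ → ZMod 2) (n j : ℕ)
    (h : ctr l n j c0 ≠ 0) :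
    PHs ((lamT l n).comp (GG.proj : GF hc →* T0)).ker := by
  intro c hcc a ha
  have hat : a.t = 1 := by
    apply A_T0
    exact D3_map (GG.proj : GF hc →* T0) (N' := ⊤) (fun _ _ => trivial) ha
  have hct : c.t ∈ D2 (lamT l n).ker :=
    D2_map (GG.proj : GF hc →* T0) (N' := (lamT l n).ker) (fun x hx => hx) hcc
  obtain ⟨c', hc', he⟩ := D2_lift' q (lamL l n).ker (lamT l n).ker (by
    intro x hx
    obtain ⟨y, rfl⟩ := q_surj x
    exact ⟨y, hx, rfl⟩) hct
  have hP : ¬ Pd (q c0) c.t := by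
    intro hP
    rw [← he] at hP
    have h1 := ctr_Pd l n j hc hP
    rw [ctr_ker l n j hc'] at h1
    exact h h1.symm
  change hh c a = 1
  rw [GG.hh_of hat]
  ext1
  · rfl
  · have hcD : c.t ∈ DD T0 := D2_mono le_top hct
    exact diag_zero good_T0 (q_mem hc) hn hcD hP a.m
  · rfl

/-- laws of `G` are killed by the detection homomorphisms -/
theorem DF_law {c0 : F} (hc : c0 ∈ DD F) (hn : NS c0) (w : F) (hw : ∀ φ : F →* G, φ w = 1)
    (g : F →* GF hc) : g w = 1 := by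
  have h : ∃ i j, ¬ (2 : ℤ) ∣ (tau c0).w i j := by
    by_contra hcon
    push Not at hcon
    exact hn (square_of_even hc hcon)
  obtain ⟨i, j, hij⟩ := h
  have hctr : ctr (Pi.single i 1) (i+1) j c0 ≠ 0 := by
    unfold ctr
    rw [Finset.sum_eq_single i]
    · simp only [Pi.single_eq_same, one_mul]
      intro h0
      exact hij ((ZMod.intCast_zmod_eq_zero_iff_dvd _ 2).mp h0)
    · intro b _ hb
      simp [hb]
    · intro h0
      exact absurd (Finset.mem_range.mpr (Nat.lt_succ_self i)) h0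
  exact law_transfer (PX_GF hc hn) _ (PHs_GF hc hn _ _ j hctr) w hw g

theorem DF_t {c0 : F} (hc : c0 ∈ DD F) {a : F} (ha : a ∈ A F) : (DF hc a).t = 1 := by
  rw [Dh_t, q_eq_one]; exact ha

theorem DF_hh {c0 : F} (hc : c0 ∈ DD F) (c : F) {a : F} (ha : a ∈ A F) :
    DF hc (hh c a) = ⟨(0 : MM T0), bM (q c0) (actM (q c) (Dm (q_mem hc) a)) (Dm (q_mem hc) a), 1⟩ := by
  rw [map_hh, GG.hh_of (DF_t hc ha), Dh_t]
  rfl

theorem DF_hh_zero {c0 : F} (hc : c0 ∈ DD F) (hn : NS c0) {c : F} (hcD : c ∈ DD F)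
    (hP : ¬ Pd (q c0) (q c)) {a : F} (ha : a ∈ A F) : DF hc (hh c a) = 1 := by
  rw [DF_hh hc c ha, diag_zero good_T0 (q_mem hc) hn (q_mem hcD) hP]
  rfl

theorem DF_hh_c0 {c0 : F} (hc : c0 ∈ DD F) (hn : NS c0) {a : F} (ha : a ∈ A F)
    (h : DF hc (hh c0 a) = 1) : a ∈ Sq := by
  rw [DF_hh hc c0 ha, diag_c0 good_T0 (q_mem hc) hn] at h
  have h1 : actM (q c0) (Dm (q_mem hc) a) = 0 := congrArg GG.z h
  have h2 : Dm (q_mem hc) a = 0 := by
    have := congrArg (actM (q c0)⁻¹) h1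
    rw [← actM_mul, inv_mul_cancel, actM_one, map_zero] at this
    exact this
  exact magnus (q_mem hc) ha h2

end Pool.Agent.LawsFJ
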