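import Mathlib
import Pool.Agent.LawsFI.Core
import Pool.Agent.LawsFI.Words
import Pool.Agent.LawsFJ.Basic
import Pool.Agent.LawsFJ.Form
import Pool.Agent.LawsFJ.Tstr
import Pool.Agent.LawsFJ.Magnus
import Pool.Agent.LawsFJ.Main

set_option autoImplicit false

/-!
# The laws of `G` are based on three words
-/

namespace Pool.Agent.LawsFJ

open Pool.Agent.LawsFI (F C2 cm map_cm lam0 xi xi_ne C2_cases sh rho lam0_sh rho_sh V)

open Classical in
noncomputable def SX : Finset F := {wX1 X, wX2 X, wX3 X}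

theorem V_inst {s : F} {S : Finset F} (hs : s ∈ S) (ψ : F →* F) : ψ s ∈ V S :=
  Subgroup.subset_closure ⟨s, hs, ψ, rfl⟩

theorem V_le_ker {S : Finset F} {T : Type} [Group T] (g : F →* T)
    (h : ∀ s ∈ S, ∀ ψ : F →* F, g (ψ s) = 1) : V S ≤ g.ker := by
  unfold Pool.Agent.LawsFI.V
  rw [Subgroup.closure_le]
  rintro _ ⟨s, hs, ψ, rfl⟩
  exact h s hs ψ

theorem VX_le_ker {T : Type} [Group T] (hX : PX T) (g : F →* T) : V SX ≤ g.ker := by
  apply V_le_ker
  intro s hs ψ
  have hs' : s = wX1 X ∨ s = wX2 X ∨ s = wX3 X := by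
    simpa [SX] using hs
  rcases hs' with rfl | rfl | rfl
  · rw [map_wX1, map_wX1]; exact (hX _).1
  · rw [map_wX2, map_wX2]; exact (hX _).2.1
  · rw [map_wX3, map_wX3]; exact (hX _).2.2

abbrev Qx := F ⧸ V SX

noncomputable def mkQ : F →* Qx := QuotientGroup.mk' (V SX)

theorem mkQ_surj : Function.Surjective mkQ := QuotientGroup.mk'_surjective _

theorem mkQ_eq_one {w : F} : mkQ w = 1 ↔ w ∈ V SX := by
  unfold mkQ; simp

theorem PX_Qx : PX Qx := by
  apply PX_quot mkQ mkQ_surj
  intro v
  have e : v = fun j => (FreeGroup.lift v) (X j) := by funext j; simp [X]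
  refine ⟨?_, ?_, ?_⟩
  · rw [e, ← map_wX1, mkQ_eq_one]
    exact V_inst (by simp [SX]) _
  · rw [e, ← map_wX2, mkQ_eq_one]
    exact V_inst (by simp [SX]) _
  · rw [e, ← map_wX3, mkQ_eq_one]
    exact V_inst (by simp [SX]) _

noncomputable def M1 : Subgroup Qx := Subgroup.closure {x | ∃ c ∈ DD Qx, ∃ a ∈ A Qx, x = hh c a}

instance : M1.Normal := by
  unfold M1
  constructor
  intro n hn g
  induction hn using Subgroup.closure_induction with
  | mem x hx =>
    obtain ⟨c, hc, a, ha, rfl⟩ := hx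
    apply Subgroup.subset_closure
    exact ⟨c, hc, g * a * g⁻¹, D3_conj g ha, A8 PX_Qx g hc ha⟩
  | one => simp
  | mul x y _ _ hx hy =>
    have : g * (x * y) * g⁻¹ = (g * x * g⁻¹) * (g * y * g⁻¹) := by group
    rw [this]
    exact Subgroup.mul_mem _ hx hy
  | inv x _ hx =>
    have : g * x⁻¹ * g⁻¹ = (g * x * g⁻¹)⁻¹ := by group
    rw [this]
    exact Subgroup.inv_mem _ hx

theorem PX_T1 : PX (Qx ⧸ M1) := by
  apply PX_quot (QuotientGroup.mk' M1) (QuotientGroup.mk'_surjective _)
  intro v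
  obtain ⟨h1, h2, h3⟩ := PX_Qx v
  rw [h1, h2, h3, map_one]
  exact ⟨rfl, rfl, rfl⟩

theorem PHs_T1 : PHs (⊤ : Subgroup (Qx ⧸ M1)) := by
  intro c hc a ha
  obtain ⟨c', hc', rfl⟩ := D2_lift (QuotientGroup.mk' M1) (QuotientGroup.mk'_surjective _) hc
  obtain ⟨a', ha', rfl⟩ := D3_lift (QuotientGroup.mk' M1) (QuotientGroup.mk'_surjective _) ha
  change hh (QuotientGroup.mk' M1 c') (QuotientGroup.mk' M1 a') = 1
  rw [← map_hh]
  have : hh c' a' ∈ M1 := Subgroup.subset_closure ⟨c', hc', a', ha', rfl⟩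
  simpa using this

theorem law_G_H {w : F} (hw : ∀ φ : F →* G, φ w = 1) (φ : F →* H) : φ w = 1 := by
  apply H.subtype_injective
  rw [map_one]
  exact hw (H.subtype.comp φ)

theorem law_H_M1 {w : F} (hw : ∀ φ : F →* H, φ w = 1) : mkQ w ∈ M1 := by
  have := lawH_imp w hw PX_T1 PHs_T1 ((QuotientGroup.mk' M1).comp mkQ)
  simpa using this

/-! ### products of values -/

def PL (L : List (F × F)) : F := (L.map (fun p => hh p.1 p.2)).prod

def OK (L : List (F × F)) : Prop := ∀ p ∈ L, p.1 ∈ DD F ∧ p.2 ∈ A F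

theorem PL_nil : PL [] = 1 := rfl

theorem PL_cons (p : F × F) (L : List (F × F)) : PL (p :: L) = hh p.1 p.2 * PL L := by
  simp [PL]

theorem PL_append (L L' : List (F × F)) : PL (L ++ L') = PL L * PL L' := by
  simp [PL]

theorem OK_cons {p : F × F} {L : List (F × F)} (h : OK (p :: L)) :
    p.1 ∈ DD F ∧ p.2 ∈ A F ∧ OK L :=
  ⟨(h p (by simp)).1, (h p (by simp)).2, fun x hx => h x (by simp [hx])⟩

theorem PL_mem {L : List (F × F)} (h : OK L) : PL L ∈ A F := by
  induction L with
  | nil => exact Subgroup.one_mem _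
  | cons p L ih =>
    obtain ⟨_, h2, h3⟩ := OK_cons h
    rw [PL_cons]
    exact Subgroup.mul_mem _ (hh_mem_A h2) (ih h3)

theorem map_A {T : Type} [Group T] (g : F →* T) {a : F} (ha : a ∈ A F) : g a ∈ A T :=
  D3_map g (N' := ⊤) (fun _ _ => trivial) ha

theorem map_DD {T : Type} [Group T] (g : F →* T) {a : F} (ha : a ∈ DD F) : g a ∈ DD T :=
  D2_map g (N' := ⊤) (fun _ _ => trivial) ha

theorem PL_reverse {L : List (F × F)} (h : OK L) : mkQ (PL L.reverse) = (mkQ (PL L))⁻¹ := by
  induction L with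
  | nil => simp [PL_nil]
  | cons p L ih =>
    obtain ⟨_, h2, h3⟩ := OK_cons h
    rw [List.reverse_cons, PL_append, PL_cons, PL_cons, PL_nil, mul_one, map_mul, map_mul, ih h3,
      mul_inv_rev]
    congr 1
    rw [map_hh]
    exact eq_inv_of_mul_eq_one_left (hh_sq PX_Qx (map_A mkQ h2))

theorem M1_list {x : Qx} (hx : x ∈ M1) : ∃ L, OK L ∧ x = mkQ (PL L) := by
  unfold M1 at hx
  induction hx using Subgroup.closure_induction with
  | mem x hx =>
    obtain ⟨c, hc, a, ha, rfl⟩ := hx
    obtain ⟨c', hc', rfl⟩ := D2_lift mkQ mkQ_surj hc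
    obtain ⟨a', ha', rfl⟩ := D3_lift mkQ mkQ_surj ha
    refine ⟨[(c', a')], ?_, ?_⟩
    · intro p hp
      simp only [List.mem_singleton] at hp
      subst hp
      exact ⟨hc', ha'⟩
    · rw [PL_cons, PL_nil, mul_one, map_hh]
  | one => exact ⟨[], fun p hp => by simp at hp, by rw [PL_nil, map_one]⟩
  | mul x y _ _ hx hy =>
    obtain ⟨L, hL, rfl⟩ := hx
    obtain ⟨L', hL', rfl⟩ := hy
    refine ⟨L ++ L', ?_, by rw [PL_append, map_mul]⟩
    intro p hp
    rcases List.mem_append.mp hp with h | h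
    · exact hL p h
    · exact hL' p h
  | inv x _ hx =>
    obtain ⟨L, hL, rfl⟩ := hx
    exact ⟨L.reverse, fun p hp => hL p (by simpa using hp), (PL_reverse hL).symm⟩

section gen

variable {T : Type} [Group T] (hX : PX T) (g : F →* T)

include hX

theorem hh_not_NS {c a : F} (hn : ¬ NS c) (ha : a ∈ A F) : g (hh c a) = 1 := by
  unfold NS at hn
  rw [not_not] at hn
  obtain ⟨e, he, h1⟩ := hn
  obtain ⟨d, hd, rfl⟩ := D2_lift q q_surj he
  have hk : (d * d)⁻¹ * c ∈ A F := by
    rw [← q_eq_one, map_mul, map_inv, h1, map_mul]; simp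
  have hc : c = (1 * (d * d)) * ((d * d)⁻¹ * c) := by group
  rw [hc, map_hh, map_mul, A7 hX (map_A g ha) (map_A g hk), map_mul, map_mul,
    A6 hX (map_DD g hd) (map_A g ha), map_one]
  unfold hh
  rw [one_mul, inv_one, mul_one, cm_self]

end gen

theorem same_class {c1 : F} (hc1 : c1 ∈ DD F) (L : List (F × F)) (hL : OK L)
    (hP : ∀ p ∈ L, Pd (q c1) (q p.1)) :
    ∃ b ∈ A F, ∀ (T : Type) [Group T], PX T → ∀ g : F →* T, g (PL L) = g (hh c1 b) := by
  induction L with
  | nil =>
    refine ⟨1, Subgroup.one_mem _, fun T _ _ g => ?_⟩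
    rw [PL_nil]
    simp [hh, cm]
  | cons p L ih =>
    obtain ⟨h1, h2, h3⟩ := OK_cons hL
    obtain ⟨b, hb, hbT⟩ := ih h3 (fun x hx => hP x (by simp [hx]))
    obtain ⟨e, he, h4⟩ := hP p (by simp)
    obtain ⟨d, hd, rfl⟩ := D2_lift q q_surj he
    have hk : (c1 * (d * d))⁻¹ * p.1 ∈ A F := by
      rw [← q_eq_one, map_mul, map_inv, h4, map_mul, map_mul]; simp
    have hc : p.1 = (c1 * (d * d)) * ((c1 * (d * d))⁻¹ * p.1) := by group
    have hda : d * p.2 * d⁻¹ ∈ A F := D3_conj d h2
    refine ⟨(d * p.2 * d⁻¹) * b, Subgroup.mul_mem _ hda hb, fun T _ hX g => ?_⟩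
    rw [PL_cons, map_mul, hbT T hX g]
    have e1 : g (hh p.1 p.2) = g (hh c1 (d * p.2 * d⁻¹)) := by
      rw [hc, map_hh, map_mul, A7 hX (map_A g h2) (map_A g hk), map_mul, map_mul,
        A6 hX (map_DD g hd) (map_A g h2), map_hh, map_mul, map_mul, map_inv]
    rw [e1, map_hh, map_hh, map_hh, ← A5 hX (map_DD g hc1) (map_A g hda) (map_A g hb), ← map_mul]

theorem split {T : Type} [Group T] (hX : PX T) (g : F →* T) (P : F × F → Bool)
    (L : List (F × F)) (hL : OK L) :
    g (PL L) = g (PL (L.filter P)) * g (PL (L.filter (fun p => !P p))) := by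
  induction L with
  | nil => simp [PL_nil]
  | cons p L ih =>
    obtain ⟨h1, h2, h3⟩ := OK_cons hL
    have hf : OK (L.filter P) := fun x hx => h3 x (List.mem_filter.mp hx).1
    rw [PL_cons, map_mul, ih h3]
    by_cases hp : P p = true
    · rw [List.filter_cons_of_pos hp, List.filter_cons_of_neg (by simp [hp]), PL_cons, map_mul,
        mul_assoc]
    · rw [List.filter_cons_of_neg hp, List.filter_cons_of_pos (by simp [hp]), PL_cons, map_mul,
        ← mul_assoc, ← mul_assoc]
      congr 1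
      rw [map_hh]
      exact hh_comm hX (map_A g h2) (map_A g (PL_mem hf))

theorem map_Sq {T : Type} [Group T] (g : F →* T) {b : F} (hb : b ∈ Sq) :
    g b ∈ Subgroup.closure {x : T | ∃ s ∈ A T, x = s * s} := by
  have : Sq ≤ (Subgroup.closure {x : T | ∃ s ∈ A T, x = s * s}).comap g := by
    unfold Sq
    rw [Subgroup.closure_le]
    rintro _ ⟨s, hs, rfl⟩
    apply Subgroup.subset_closure
    exact ⟨g s, map_A g hs, map_mul _ _ _⟩
  exact this hb

theorem inj (n : ℕ) : ∀ L : List (F × F), L.length ≤ n → OK L →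
    (∀ (c0 : F) (hc : c0 ∈ DD F), NS c0 → DF hc (PL L) = 1) → mkQ (PL L) = 1 := by
  classical
  induction n with
  | zero =>
    intro L hn _ _
    have : L = [] := List.length_eq_zero_iff.mp (Nat.le_zero.mp hn)
    rw [this, PL_nil, map_one]
  | succ n ih =>
    intro L hn hL h
    rcases L with _ | ⟨p, L⟩
    · rw [PL_nil, map_one]
    · obtain ⟨h1, h2, h3⟩ := OK_cons hL
      by_cases hNS : NS p.1
      · -- the class of `p.1`
        let P : F × F → Bool := fun x => decide (Pd (q p.1) (q x.1))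
        have hPp : P p = true := by
          simp only [P, decide_eq_true_eq]
          exact ⟨1, Subgroup.one_mem _, by simp⟩
        set Lp := (p :: L).filter P with hLp
        set Ln := (p :: L).filter (fun x => !P x) with hLn
        have hOKp : OK Lp := fun x hx => hL x (List.mem_filter.mp hx).1
        have hOKn : OK Ln := fun x hx => hL x (List.mem_filter.mp hx).1
        have hPLp : ∀ x ∈ Lp, Pd (q p.1) (q x.1) := by
          intro x hx
          have := (List.mem_filter.mp hx).2
          simpa [P] using this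
        have hPLn : ∀ x ∈ Ln, ¬ Pd (q p.1) (q x.1) := by
          intro x hx
          have := (List.mem_filter.mp hx).2
          simpa [P] using this
        obtain ⟨b, hb, hbT⟩ := same_class h1 Lp hOKp hPLp
        -- detection
        have hzero : DF h1 (PL Ln) = 1 := by
          have key : ∀ M : List (F × F), OK M → (∀ x ∈ M, ¬ Pd (q p.1) (q x.1)) →
              DF h1 (PL M) = 1 := by
            intro M
            induction M with
            | nil => intro _ _; rw [PL_nil, map_one]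
            | cons x M ihM =>
              intro hM hMP
              obtain ⟨g1, g2, g3⟩ := OK_cons hM
              rw [PL_cons, map_mul, ihM g3 (fun y hy => hMP y (by simp [hy])), mul_one]
              exact DF_hh_zero h1 hNS g1 (hMP x (by simp)) g2
          exact key Ln hOKn hPLn
        have hc0 : DF h1 (hh p.1 b) = 1 := by
          have e1 := split (PX_GF h1 hNS) (DF h1) P (p :: L) hL
          rw [h p.1 h1 hNS, ← hLp, ← hLn, hzero, mul_one, hbT _ (PX_GF h1 hNS)] at e1
          exact e1.symm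
        have hSq : b ∈ Sq := DF_hh_c0 h1 hNS hb hc0
        have hall : ∀ (T : Type) [Group T], PX T → ∀ g : F →* T, g (PL (p :: L)) = g (PL Ln) := by
          intro T _ hX g
          rw [split hX g P (p :: L) hL, ← hLp, ← hLn, hbT T hX g, map_hh,
            hh_squares hX (map_DD g h1) (map_Sq g hSq), one_mul]
        rw [hall Qx PX_Qx mkQ]
        apply ih Ln _ hOKn
        · intro c0 hc hn0
          rw [← hall _ (PX_GF hc hn0)]
          exact h c0 hc hn0
        · have : Ln = L.filter (fun x => !P x) := by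
            rw [hLn, List.filter_cons_of_neg (by simp [hPp])]
          rw [this]
          have h5 := List.length_filter_le (fun x => !P x) L
          simp only [List.length_cons] at hn
          omega
      · have hall : ∀ (T : Type) [Group T], PX T → ∀ g : F →* T, g (PL (p :: L)) = g (PL L) := by
          intro T _ hX g
          rw [PL_cons, map_mul, hh_not_NS hX g hNS h2, one_mul]
        rw [hall Qx PX_Qx mkQ]
        apply ih L _ h3
        · intro c0 hc hn0
          rw [← hall _ (PX_GF hc hn0)]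
          exact h c0 hc hn0
        · simp only [List.length_cons] at hn
          omega

/-- laws of `G` -/
theorem laws_G_le {w : F} (hw : ∀ φ : F →* G, φ w = 1) : w ∈ V SX := by
  obtain ⟨L, hL, h1⟩ := M1_list (law_H_M1 (law_G_H hw))
  have h2 : mkQ (w * (PL L)⁻¹) = 1 := by rw [map_mul, map_inv, ← h1, mul_inv_cancel]
  rw [mkQ_eq_one] at h2
  have h3 : ∀ (c0 : F) (hc : c0 ∈ DD F), NS c0 → DF hc (PL L) = 1 := by
    intro c0 hc hn
    have h4 := VX_le_ker (PX_GF hc hn) (DF hc) h2
    rw [MonoidHom.mem_ker, map_mul, map_inv, DF_law hc hn w hw, one_mul, inv_eq_one] at h4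
    exact h4
  have h5 := inj L.length L le_rfl hL h3
  rw [← mkQ_eq_one, h1, h5]

theorem laws_G : {w : F | ∀ f : F →* G, f w = 1} = ((V SX : Subgroup F) : Set F) := by
  ext w
  constructor
  · intro hw
    exact laws_G_le hw
  · intro hw f
    exact VX_le_ker PX_G f hw

end Pool.Agent.LawsFJ
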