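import Mathlib
import Pool.Agent.LawsFI.Core
import Pool.Agent.LawsFI.Words
import Pool.Agent.LawsFJ.Basic
import Pool.Agent.LawsFJ.Form
import Pool.Agent.LawsFJ.Tstr
import Pool.Agent.LawsFJ.Magnus
import Pool.Agent.LawsFJ.Main
import Pool.Agent.LawsFJ.LawsG

set_option autoImplicit false

/-!
# The laws of `H` are not finitely based
-/

namespace Pool.Agent.LawsFJ

open Pool.Agent.LawsFI (F C2 cm map_cm lam0 xi xi_ne C2_cases sh rho lam0_sh rho_sh V
  finite_support')

/-! ### the elements `∏ [x_{2i}, x_{2i+1}]` -/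

def cst : ℕ → F
  | 0 => 1
  | (n+1) => cst n * cm (X (2*n)) (X (2*n+1))

theorem cst_mem (n : ℕ) : cst n ∈ DD F := by
  induction n with
  | zero => exact Subgroup.one_mem _
  | succ n ih => exact Subgroup.mul_mem _ ih (cm_mem_D2 trivial trivial)

theorem ctr_cm (l : ℕ → ZMod 2) (N a b j : ℕ) (ha : a < N) (hb : b < N) :
    ctr l N j (cm (X a) (X b)) = (if j = b then l a else 0) - (if j = a then l b else 0) := by
  unfold ctr
  have : ∀ i, l i * (((tau (cm (X a) (X b))).w i j : ℤ) : ZMod 2) =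
      (if i = a then (if j = b then l i else 0) else 0) -
      (if i = b then (if j = a then l i else 0) else 0) := by
    intro i
    rw [map_cm, Hs.cm_w, tau_X, tau_X]
    simp only [Pi.single_apply]
    split_ifs <;> simp
  simp only [this, Finset.sum_sub_distrib, Finset.sum_ite_eq', Finset.mem_range, ha, hb, if_true]

theorem ctr_cst (l : ℕ → ZMod 2) (N j n : ℕ) (hn : 2 * n ≤ N) :
    ctr l N j (cst n) = ∑ m ∈ Finset.range n,
      ((if j = 2*m+1 then l (2*m) else 0) - (if j = 2*m then l (2*m+1) else 0)) := by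
  induction n with
  | zero => exact ctr_A l N j (Subgroup.one_mem _)
  | succ n ih =>
    rw [Finset.sum_range_succ, ← ih (by omega), cst, ctr_mul _ _ _ (cst_mem n),
      ctr_cm _ _ _ _ _ (by omega) (by omega)]

theorem ctr_cst_odd (l : ℕ → ZMod 2) (n m : ℕ) (hm : m < n) :
    ctr l (2*n) (2*m+1) (cst n) = l (2*m) := by
  rw [ctr_cst l (2*n) (2*m+1) n le_rfl, Finset.sum_eq_single m]
  · rw [if_pos rfl, if_neg (by omega), sub_zero]
  · intro b _ hb
    rw [if_neg (by omega), if_neg (by omega), sub_zero]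
  · intro h
    exact absurd (Finset.mem_range.mpr hm) h

theorem ctr_cst_even (l : ℕ → ZMod 2) (n m : ℕ) (hm : m < n) :
    ctr l (2*n) (2*m) (cst n) = - l (2*m+1) := by
  rw [ctr_cst l (2*n) (2*m) n le_rfl, Finset.sum_eq_single m]
  · rw [if_pos rfl, if_neg (by omega), zero_sub]
  · intro b _ hb
    rw [if_neg (by omega), if_neg (by omega), sub_zero]
  · intro h
    exact absurd (Finset.mem_range.mpr hm) h

theorem ctr_cst_ne (l : ℕ → ZMod 2) (n i : ℕ) (hi : i < 2 * n) (hl : l i ≠ 0) :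
    ∃ j, ctr l (2*n) j (cst n) ≠ 0 := by
  rcases Nat.even_or_odd' i with ⟨m, rfl | rfl⟩
  · exact ⟨2*m+1, by rw [ctr_cst_odd l n m (by omega)]; exact hl⟩
  · exact ⟨2*m, by rw [ctr_cst_even l n m (by omega)]; exact neg_ne_zero.mpr hl⟩

theorem NS_cst (n : ℕ) (hn : 0 < n) : NS (cst n) := by
  intro h
  obtain ⟨j, hj⟩ := ctr_cst_ne (fun _ => 1) n 0 (by omega) one_ne_zero
  exact hj (ctr_square _ _ _ h)

/-! ### a non-square element of `γ₃` -/

def ast : F := cm (cm (X 0) (X 1)) (X 0)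

theorem ast_mem : ast ∈ A F := cm_mem_D3 trivial trivial trivial

abbrev D8 := DihedralGroup 8

set_option maxRecDepth 100000 in
theorem D8_cm : ∀ x y : D8, cm x y = .r 0 ∨ cm x y = .r 2 ∨ cm x y = .r 4 ∨ cm x y = .r 6 := by
  decide

set_option maxRecDepth 100000 in
theorem D8_cm2 : ∀ z : D8, (cm (.r 0) z = 1 ∨ cm (.r 0) z = .r 4) ∧
    (cm (.r 2) z = 1 ∨ cm (.r 2) z = .r 4) ∧ (cm (.r 4) z = 1 ∨ cm (.r 4) z = .r 4) ∧
    (cm (.r 6) z = 1 ∨ cm (.r 6) z = .r 4) := by
  decide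

theorem D8_A {s : D8} (hs : s ∈ A D8) : s = 1 ∨ s = .r 4 := by
  refine A_induction (p := fun s => s = 1 ∨ s = .r 4) ?_ ?_ ?_ ?_ hs
  · rintro _ ⟨x, y, z, rfl⟩
    obtain ⟨h1, h2, h3, h4⟩ := D8_cm2 z
    rcases D8_cm x y with h | h | h | h <;> rw [h]
    · exact h1
    · exact h2
    · exact h3
    · exact h4
  · exact Or.inl rfl
  · rintro x _ y _ (rfl | rfl) (rfl | rfl)
    · exact Or.inl rfl
    · exact Or.inr rfl
    · exact Or.inr rfl
    · exact Or.inl rfl
  · rintro x _ (rfl | rfl)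
    · exact Or.inl rfl
    · exact Or.inr rfl

theorem ast_not_Sq : ast ∉ Sq := by
  intro h
  let f : F →* D8 := FreeGroup.lift (fun i => if i = 0 then .sr 0 else .r 1)
  have h1 := map_Sq f h
  have h2 : ∀ x ∈ Subgroup.closure {x : D8 | ∃ s ∈ A D8, x = s * s}, x = 1 := by
    intro x hx
    induction hx using Subgroup.closure_induction with
    | mem x hx =>
      obtain ⟨s, hs, rfl⟩ := hx
      rcases D8_A hs with rfl | rfl <;> rfl
    | one => rfl
    | mul x y _ _ hx hy => rw [hx, hy]; rfl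
    | inv x _ hx => rw [hx]; rfl
  have h3 := h2 _ h1
  have h4 : f ast = cm (cm (.sr 0) (.r 1)) (.sr 0) := by
    unfold ast
    rw [map_cm, map_cm]
    simp [f, X]
  rw [h4] at h3
  revert h3
  decide

/-! ### the functional -/

theorem exists_l (N k : ℕ) (hk : k < N) (u : Fin k → ℕ → ZMod 2) :
    ∃ l : ℕ → ZMod 2, (∃ i < N, l i ≠ 0) ∧
      ∀ j : Fin k, ∑ i ∈ Finset.range N, l i * u j i = 0 := by
  classical
  let Φ : (Fin N → ZMod 2) →ₗ[ZMod 2] (Fin k → ZMod 2) :=
    { toFun := fun l j => ∑ i : Fin N, l i * u j i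
      map_add' := by
        intro l l'; funext j
        simp only [Pi.add_apply, add_mul, Finset.sum_add_distrib]
      map_smul' := by
        intro r l; funext j
        simp only [Pi.smul_apply, smul_eq_mul, RingHom.id_apply, Finset.mul_sum, mul_assoc] }
  have hker : LinearMap.ker Φ ≠ ⊥ := by
    apply LinearMap.ker_ne_bot_of_finrank_lt
    simp [hk]
  obtain ⟨l, hl, hne⟩ := (Submodule.ne_bot_iff _).mp hker
  have hex : ∃ i, l i ≠ 0 := by
    by_contra h
    push Not at h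
    exact hne (funext h)
  obtain ⟨i, hi⟩ := hex
  refine ⟨fun i => if h : i < N then l ⟨i, h⟩ else 0, ⟨i.1, i.2, by simpa using hi⟩, ?_⟩
  intro j
  have h1 := congrFun hl j
  simp only [Pi.zero_apply] at h1
  rw [← Fin.sum_univ_eq_sum_range (fun i => (if h : i < N then l ⟨i, h⟩ else 0) * u j i) N]
  rw [← h1]
  apply Finset.sum_congr rfl
  intro i _
  simp

/-! ### conclusion -/

theorem PHs_sub {T : Type} [Group T] {N : Subgroup T} (h : PHs N) : PHs (⊤ : Subgroup N) := by
  intro c hc a ha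
  apply N.subtype_injective
  have h1 := h _ (D2_map N.subtype (N' := N) (fun x _ => x.2) hc) _
    (D3_map N.subtype (N' := N) (fun x _ => x.2) ha)
  rw [map_one]
  exact h1

theorem law_few {n k : ℕ} (hn : 0 < n) (hk : k < 2 * n) {s : F}
    (hs : ∀ φ : F →* H, φ s = 1)
    (hsupp : ∀ (T : Type) [Group T] (f f' : F →* T),
      (∀ i < k, f (FreeGroup.of i) = f' (FreeGroup.of i)) → f s = f' s)
    (ψ : F →* F) : DF (cst_mem n) (ψ s) = 1 := by
  classical
  obtain ⟨l, ⟨i, hi, hli⟩, hl⟩ := exists_l (2*n) k hk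
    (fun j i => (((tau (ψ (X j))).v i : ℤ) : ZMod 2))
  obtain ⟨j, hj⟩ := ctr_cst_ne l n i hi hli
  set N : Subgroup (GF (cst_mem n)) := ((lamT l (2*n)).comp (GG.proj : GF (cst_mem n) →* T0)).ker
    with hN
  have hPX : PX N := PX_sub N.subtype N.subtype_injective (PX_GF (cst_mem n) (NS_cst n hn))
  have hPH : PHs (⊤ : Subgroup N) := PHs_sub (PHs_GF (cst_mem n) (NS_cst n hn) l (2*n) j hj)
  have hmem : ∀ i < k, DF (cst_mem n) (ψ (X i)) ∈ N := by
    intro i hik
    rw [hN, MonoidHom.mem_ker, MonoidHom.comp_apply]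
    have e1 : GG.proj (DF (cst_mem n) (ψ (X i))) = q (ψ (X i)) := Dh_t _ _
    rw [e1, lamT_q]
    have e2 := lamL_eq l (2*n) (ψ (X i))
    rw [hl ⟨i, hik⟩] at e2
    exact e2
  let f' : F →* N := FreeGroup.lift (fun i =>
    if h : i < k then (⟨DF (cst_mem n) (ψ (X i)), hmem i h⟩ : N) else 1)
  have h1 : f' s = 1 := lawH_imp s hs hPX hPH f'
  have h2 := hsupp _ ((DF (cst_mem n)).comp ψ) (N.subtype.comp f') (by
    intro i hik
    simp [f', hik, X])
  rw [MonoidHom.comp_apply, MonoidHom.comp_apply, h1, map_one] at h2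
  exact h2

theorem H_not_fb (S : Finset F)
    (hS : {w : F | ∀ f : F →* H, f w = 1} = ((V S : Subgroup F) : Set F)) : False := by
  obtain ⟨k, hk⟩ := finite_support' S
  have hn : 0 < k + 1 := Nat.succ_pos k
  have hVS : V S ≤ (DF (cst_mem (k+1))).ker := by
    apply V_le_ker
    intro s hs ψ
    apply law_few hn (by omega : k < 2 * (k+1)) _ (fun T _ f f' h => hk s hs T f f' h)
    have : s ∈ ((V S : Subgroup F) : Set F) := V_inst hs (MonoidHom.id F)
    rw [← hS] at this
    exact this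
  have h1 : hh (cst (k+1)) ast ∈ ((V S : Subgroup F) : Set F) := by
    rw [← hS]
    exact fun φ => hh_law_H (cst_mem _) ast_mem φ
  have h2 := hVS h1
  exact ast_not_Sq (DF_hh_c0 (cst_mem _) (NS_cst _ hn) ast_mem h2)

end Pool.Agent.LawsFJ
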